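import Pool.Agent.U259.AQ.Wfin
import Pool.Agent.N85.WM.Fin

/-!
# The numbers of classes and weights of `G ≀ C_p`
-/

set_option autoImplicit false
set_option linter.unusedSectionVars false

open scoped Classical BigOperators

noncomputable section

namespace Pool.Agent.U259.AQ

open Pool.Agent.Y63.NV
open Pool.Agent.Y63.AWC (numRegularClasses numWeights)
open Pool.Agent.N85.WM (Wr Base wrF wrF_inZ IsIdem uno uno_class uno_idem wrF_uno YS cvS wsum_top
  lsum_top card_wr card_quot lw' ww')
open Pool.Agent.U259.WQ (uno_single dl_uno)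

variable {p : ℕ} [hp : Fact p.Prime] {F : Type} [Field F] [IsAlgClosed F] [CharP F p]

theorem lnum_reg (H : Type) [Group H] [Finite H] :
    Lnum (⊤ : Subgroup H) ⊤ (uno F H) 1 = numRegularClasses p H := by
  rw [uno_single, lreg' p F H ⊤ (pgroup_top p H), invReg_top]

theorem card_wts (red : integralClosure ℤ ℂ →+* F) (H : Type) [Group H] [Finite H] :
    (Nat.card {y : YS p H // cvS red y (uno F H) = 1} : ℤ) = numWeights p H := by
  have h3 := wsum_top (p := p) red (uno_class (F := F) (G := H)) 1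
  rw [uno_single, card_mul_w p red (⊤ : Subgroup H), Subgroup.card_top,
    Pool.Agent.Y63.AWC.numWeights_congr (p := p) (Subgroup.topEquiv (G := H))] at h3
  rw [uno_single]
  exact (mul_left_cancel₀ (by exact_mod_cast Nat.card_pos.ne') h3).symm

/-- **the number of `p`-regular classes of `G ≀ C_p`** -/
theorem l_recp (G : Type) [Group G] [Finite G] :
    (p : ℤ) * numRegularClasses p (Wr p G) =
      (numRegularClasses p G : ℤ) ^ p + ((p : ℤ) - 1) * numRegularClasses p G := by
  have : NeZero p := ⟨hp.out.ne_zero⟩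
  let F := AlgebraicClosure (ZMod p)
  have he : IsIdem (uno F G) := uno_idem
  have e1 : Lnum (⊤ : Subgroup G) ⊤ (uno F G) 1 = numRegularClasses p G := lnum_reg G
  have hz := wrF_inZ p G he.cl
  have g0 : (Nat.card G : ℤ) ≠ 0 := by exact_mod_cast (Nat.card_pos (α := G)).ne'
  have gp0 : (Nat.card G : ℤ) ^ p ≠ 0 := pow_ne_zero _ g0
  have p0 : (p : ℤ) ≠ 0 := by exact_mod_cast hp.out.ne_zero
  have a1 := pell' p F (Wr p G) (Base p G) (wrF p (uno F G)) 1 (card_quot p G) hz
  obtain ⟨a2, a3⟩ := lw' p F G (uno F G) he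
  rw [a2, a3, lsum_top, card_wr, e1, wrF_uno, lnum_reg] at a1
  refine mul_left_cancel₀ (mul_ne_zero p0 gp0) ?_
  push_cast at a1
  linear_combination a1

/-- **the number of weights of `G ≀ C_p`** -/
theorem w_recp (G : Type) [Group G] [Finite G] :
    (p : ℤ) * numWeights p (Wr p G) =
      (numWeights p G : ℤ) ^ p + ((p : ℤ) - 1) * numWeights p G := by
  have : NeZero p := ⟨hp.out.ne_zero⟩
  obtain ⟨red⟩ := exists_red p (AlgebraicClosure (ZMod p))
  let F := AlgebraicClosure (ZMod p)
  have he : IsIdem (uno F G) := uno_idem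
  have hz := wrF_inZ p G he.cl
  have hzc : IsClassFun (wrF p (uno F G)) := hz.conj
  have g0 : (Nat.card G : ℤ) ≠ 0 := by exact_mod_cast (Nat.card_pos (α := G)).ne'
  have gp0 : (Nat.card G : ℤ) ^ p ≠ 0 := pow_ne_zero _ g0
  have p0 : (p : ℤ) ≠ 0 := by exact_mod_cast hp.out.ne_zero
  have b1 := pewL' p F red (Wr p G) (Base p G) (wrF p (uno F G)) 1 (card_quot p G) hz
  have b0 : Wsum p red (⊤ : Subgroup G) ⊤ (uno F G) 1 = (Nat.card G : ℤ) * numWeights p G := by
    rw [wsum_top red he.cl, card_wts red]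
  obtain ⟨b2, b3⟩ := ww' p F red G (uno F G) _ he b0
  rw [b2, b3, wsum_top red hzc, card_wr, wrF_uno, card_wts red] at b1
  refine mul_left_cancel₀ (mul_ne_zero p0 gp0) ?_
  push_cast at b1
  linear_combination b1

end Pool.Agent.U259.AQ
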