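import Pool.Agent.U259.AQ.Ari
import Pool.Agent.U259.AQ.Recp

/-!
# The values of `l(G) - w(G)`
-/

set_option autoImplicit false
set_option linter.unusedSectionVars false

open scoped Classical BigOperators

noncomputable section

namespace Pool.Agent.U259.AQ

open Pool.Agent.Y63.AWC (numRegularClasses numWeights)
open Pool.Agent.N85.WM (Wr)
open Pool.Agent.U259.KQ (drop exists_pow)

variable {p : ℕ} [hp : Fact p.Prime]

/-- the constant of the recursions -/
def cst (p q : ℕ) : ℤ := if q = p then (q : ℤ) - 1 else (q : ℤ) ^ 2 - 1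

theorem cst_mod (q : ℕ) : ((cst p q : ℤ) : ZMod q) = -1 := by
  unfold cst
  split_ifs <;> simp

theorem l_all (q : ℕ) [hq : Fact q.Prime] (G : Type) [Group G] [Finite G] :
    (q : ℤ) * numRegularClasses p (Wr q G) =
      (numRegularClasses p G : ℤ) ^ q + cst p q * numRegularClasses p G := by
  unfold cst
  by_cases h : q = p
  · subst h
    rw [if_pos rfl]
    exact l_recp G
  · rw [if_neg h]
    exact l_rec h

theorem w_all (q : ℕ) [hq : Fact q.Prime] (G : Type) [Group G] [Finite G] :
    (q : ℤ) * numWeights p (Wr q G) =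
      (numWeights p G : ℤ) ^ q + cst p q * numWeights p G := by
  unfold cst
  by_cases h : q = p
  · subst h
    rw [if_pos rfl]
    exact w_recp G
  · rw [if_neg h]
    exact w_rec h

/-- the pairs of the two sides of the conjecture -/
def Prs (p : ℕ) (X : ∀ (G : Type) [Group G], Prop) (a z : ℤ) : Prop :=
  ∃ (G : Type) (_ : Group G) (_ : Finite G), X G ∧ (numWeights p G : ℤ) = a ∧
    (numRegularClasses p G : ℤ) = z

theorem prs_cld (X : ∀ (G : Type) [Group G], Prop)
    (hc : ∀ (n : ℕ) [NeZero n], ¬ p ∣ n → X (Multiplicative (ZMod n)))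
    (hm : ∀ (G K : Type) [Group G] [Group K] [Finite G] [Finite K], X G → X K → X (G × K))
    (hw : ∀ (q : ℕ) [Fact q.Prime] (G : Type) [Group G] [Finite G], X G → X (Wr q G)) :
    Cld p (Prs p X) where
  cyc n hn h := by
    have : NeZero n := ⟨hn.ne'⟩
    obtain ⟨h1, h2⟩ := lw_cyc (p := p) n h
    exact ⟨Multiplicative (ZMod n), inferInstance, inferInstance, hc n h, by rw [h2], by rw [h1]⟩
  mul := by
    rintro a z a' z' ⟨G, _, _, h1, rfl, rfl⟩ ⟨K, _, _, h2, rfl, rfl⟩
    refine ⟨G × K, inferInstance, inferInstance, hm G K h1 h2, ?_, ?_⟩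
    · rw [w_prod]
      push_cast
      rfl
    · rw [l_prod]
      push_cast
      rfl
  wr := by
    rintro q hq a z ⟨G, _, _, h1, rfl, rfl⟩
    have : Fact q.Prime := ⟨hq⟩
    exact ⟨_, _, ⟨Wr q G, inferInstance, inferInstance, hw q G h1, rfl, rfl⟩, w_all q G, l_all q G⟩

/-- **all or nothing** -/
theorem dichotomy (X : ∀ (G : Type) [Group G], Prop)
    (hc : ∀ (n : ℕ) [NeZero n], ¬ p ∣ n → X (Multiplicative (ZMod n)))
    (hm : ∀ (G K : Type) [Group G] [Group K] [Finite G] [Finite K], X G → X K → X (G × K))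
    (hw : ∀ (q : ℕ) [Fact q.Prime] (G : Type) [Group G] [Finite G], X G → X (Wr q G))
    {m : ℕ} (hm0 : m ≠ 0) {G : Type} [Group G] [Finite G] (hG : X G)
    (hE : numRegularClasses p G ≠ numWeights p G) (r : ℤ) :
    ∃ (H : Type) (_ : Group H) (_ : Finite H), X H ∧
      (m : ℤ) ∣ (numRegularClasses p H : ℤ) - numWeights p H - r := by
  obtain ⟨a, z, ⟨H, _, _, h1, h2, h3⟩, h4⟩ := all_residues hp.out hm0
    (prs_cld (p := p) X hc hm hw) (a := numWeights p G) (z := numRegularClasses p G)
    ⟨G, inferInstance, inferInstance, hG, rfl, rfl⟩ (fun h => hE (by exact_mod_cast h.symm)) r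
  refine ⟨H, inferInstance, inferInstance, h1, ?_⟩
  rw [h2, h3]
  exact h4

/-- the difference `l(G) - w(G)` -/
def D (p : ℕ) (G : Type) [Group G] : ℤ := (numRegularClasses p G : ℤ) - numWeights p G

/-- the difference of the iterated wreath products -/
def DN (p q : ℕ) [NeZero q] : ℕ → (G : Type) → [Group G] → ℤ
  | 0, G, _ => D p G
  | j + 1, G, _ => DN p q j (Wr q G)

theorem D_step (q : ℕ) [hq : Fact q.Prime] (k : ℕ) (G : Type) [Group G] [Finite G] :
    (q : ℤ) ^ (k + 1) ∣ D p G ↔ (q : ℤ) ∣ D p G ∧ (q : ℤ) ^ k ∣ D p (Wr q G) := by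
  have e1 := l_all (p := p) q G
  have e2 := w_all (p := p) q G
  constructor
  · intro h
    refine ⟨(dvd_pow_self _ (Nat.succ_ne_zero k)).trans h, ?_⟩
    have h1 : (q : ℤ) ^ (k + 1) ∣ (q : ℤ) * D p (Wr q G) := by
      have h2 : (q : ℤ) * D p (Wr q G) = ((numRegularClasses p G : ℤ) ^ q -
          (numWeights p G : ℤ) ^ q) + cst p q * D p G := by
        unfold D
        linear_combination e1 - e2
      rw [h2]
      exact dvd_add (h.trans (sub_dvd_pow_sub_pow _ _ q)) (h.mul_left _)
    rw [pow_succ'] at h1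
    exact (mul_dvd_mul_iff_left (by exact_mod_cast hq.out.ne_zero)).1 h1
  · rintro ⟨h1, h2⟩
    have key : ∀ j : ℕ, j ≤ k → (q : ℤ) ^ (j + 1) ∣ D p G := by
      intro j
      induction j with
      | zero =>
        intro _
        rwa [zero_add, pow_one]
      | succ j ih =>
        intro hj
        by_contra h3
        have h4 : (q : ℤ) ^ (j + 1) ∣ D p (Wr q G) := (pow_dvd_pow _ hj).trans h2
        exact drop hq.out (n := 1) (fun h => hq.out.one_lt.ne' (Nat.dvd_one.1 h))
          (c := cst p q) (cst_mod q) h1 h3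
          (by rw [Nat.cast_one, one_mul]; exact e1) (by rw [Nat.cast_one, one_mul]; exact e2) h4
    exact key k le_rfl

theorem D_tower (q : ℕ) [hq : Fact q.Prime] : ∀ (a : ℕ) (G : Type) [Group G] [Finite G],
    (q : ℤ) ^ a ∣ D p G ↔ ∀ j < a, (q : ℤ) ∣ DN p q j G := by
  intro a
  induction a with
  | zero =>
    intro G _ _
    simp
  | succ a ih =>
    intro G _ _
    rw [D_step, ih (Wr q G)]
    constructor
    · rintro ⟨h1, h2⟩ j hj
      rcases j with _ | j
      · exact h1
      · exact h2 j (by omega)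
    · intro h
      exact ⟨h 0 (Nat.succ_pos a), fun j hj => h (j + 1) (by omega)⟩

theorem D_zero (q : ℕ) [hq : Fact q.Prime] (G : Type) [Group G] [Finite G] :
    D p G = 0 ↔ ∀ j, (q : ℤ) ∣ DN p q j G := by
  constructor
  · intro h j
    refine (D_tower (p := p) q (j + 1) G).1 ?_ j (Nat.lt_succ_self j)
    rw [h]
    exact dvd_zero _
  · intro h
    by_contra h1
    obtain ⟨v, hv⟩ := exists_pow hq.out h1
    exact hv ((D_tower (p := p) q (v + 1) G).2 fun j _ => h j)

end Pool.Agent.U259.AQ
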