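import Pool.Agent.U259.KQ.Scl

/-!
# Pairs of integers and the polynomials `(x^q + (q² - 1) x) / q`, `(x^p + (p - 1) x) / p`
-/

set_option autoImplicit false

open scoped BigOperators

namespace Pool.Agent.U259.AQ

open Pool.Agent.U259.KQ (pow_inj choice drop exists_pow coprime_of)

/-- the choice of the multiplier for the prime `p` -/
theorem choice_p {r p : ℕ} [hr : Fact r.Prime] (hp : p.Prime) (hne : r ≠ p)
    {a z : ZMod r} (h : a ≠ z) : ∃ n : ZMod r, n ≠ 0 ∧
      (n * a) ^ p - (n * z) ^ p + ((p : ZMod r) - 1) * (n * a - n * z) ≠ 0 := by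
  by_contra hcon
  push Not at hcon
  have hD : a - z ≠ 0 := sub_ne_zero.2 h
  have hp0 : (p : ZMod r) ≠ 0 := by
    intro h5
    rw [ZMod.natCast_eq_zero_iff] at h5
    exact hne ((Nat.prime_dvd_prime_iff_eq hr.out hp).1 h5)
  have h1 := hcon 1 one_ne_zero
  rw [one_mul, one_mul] at h1
  by_cases hB : a ^ p - z ^ p = 0
  · have h2 : p ∣ r - 1 := by
      by_contra h3
      exact h (pow_inj hp h3 (sub_eq_zero.1 hB))
    rw [hB, zero_add] at h1
    have hp2 := hp.two_le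
    have hr2 := hr.out.two_le
    have hle := Nat.le_of_dvd (by omega) h2
    rcases mul_eq_zero.1 h1 with h4 | h4
    · have h5 : ((p - 1 : ℕ) : ZMod r) = 0 := by
        rw [Nat.cast_sub hp.one_le, Nat.cast_one, h4]
      rw [ZMod.natCast_eq_zero_iff] at h5
      have := Nat.le_of_dvd (by omega) h5
      omega
    · exact hD h4
  · have h2 : ∀ n : ZMod r, n ^ p = n := by
      intro n
      by_cases hn : n = 0
      · rw [hn, zero_pow hp.ne_zero]
      have h3 := hcon n hn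
      rw [mul_pow, mul_pow] at h3
      have h4 : (n ^ p - n) * (a ^ p - z ^ p) = 0 := by
        linear_combination h3 - n * h1
      rcases mul_eq_zero.1 h4 with h5 | h5
      · exact sub_eq_zero.1 h5
      · exact (hB h5).elim
    rw [h2 a, h2 z] at h1
    have h3 : (p : ZMod r) * (a - z) = 0 := by linear_combination h1
    rcases mul_eq_zero.1 h3 with h4 | h4
    · exact hp0 h4
    · exact hD h4

/-- a set of pairs of integers closed under the operations -/
structure Cld (p : ℕ) (Pr : ℤ → ℤ → Prop) : Prop where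
  cyc : ∀ n : ℕ, 0 < n → ¬ p ∣ n → Pr n n
  mul : ∀ a z a' z' : ℤ, Pr a z → Pr a' z' → Pr (a * a') (z * z')
  wr : ∀ q : ℕ, q.Prime → ∀ a z : ℤ, Pr a z → ∃ A Z : ℤ, Pr A Z ∧
    (q : ℤ) * A = a ^ q + (if q = p then (q : ℤ) - 1 else (q : ℤ) ^ 2 - 1) * a ∧
    (q : ℤ) * Z = z ^ q + (if q = p then (q : ℤ) - 1 else (q : ℤ) ^ 2 - 1) * z

theorem Cld.scale {p : ℕ} {Pr : ℤ → ℤ → Prop} (hC : Cld p Pr) (n : ℕ) (h0 : 0 < n)
    (hn : ¬ p ∣ n) (a z : ℤ) (h : Pr a z) : Pr (n * a) (n * z) :=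
  hC.mul _ _ _ _ (hC.cyc n h0 hn) h

/-- one more prime -/
theorem one_more {p : ℕ} (hp : p.Prime) {Pr : ℤ → ℤ → Prop} (hC : Cld p Pr)
    {q : ℕ} (hq : q.Prime) (S : Finset ℕ) (hS : ∀ r ∈ S, r.Prime) (hlt : ∀ r ∈ S, r < q) :
    ∀ (v : ℕ) (a z : ℤ), Pr a z → ¬ (q : ℤ) ^ (v + 1) ∣ a - z →
      (∀ r ∈ S, ¬ (r : ℤ) ∣ a - z) →
      ∃ a' z' : ℤ, Pr a' z' ∧ ∀ r ∈ insert q S, ¬ (r : ℤ) ∣ a' - z' := by
  have hqS : q ∉ S := fun h => lt_irrefl q (hlt q h)
  intro v
  induction v with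
  | zero =>
    intro a z h h1 h2
    refine ⟨a, z, h, fun r hr => ?_⟩
    rcases Finset.mem_insert.1 hr with rfl | hr
    · rwa [zero_add, pow_one] at h1
    · exact h2 r hr
  | succ v ih =>
    intro a z h h1 h2
    by_cases haz : (q : ℤ) ∣ a - z
    swap
    · refine ⟨a, z, h, fun r hr => ?_⟩
      rcases Finset.mem_insert.1 hr with rfl | hr
      · exact haz
      · exact h2 r hr
    -- the multiplier
    have hch : ∀ r : ℕ, ∃ k : ℕ, r ∈ S → ¬ r ∣ k ∧ ∀ n : ℕ, n ≡ k [MOD r] →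
        ¬ (r : ℤ) ∣ ((n : ℤ) * a) ^ q - (n * z) ^ q +
          (if q = p then (q : ℤ) - 1 else (q : ℤ) ^ 2 - 1) * (n * a - n * z) := by
      intro r
      by_cases hr : r ∈ S
      · have : Fact r.Prime := ⟨hS r hr⟩
        have : NeZero r := ⟨(hS r hr).ne_zero⟩
        have hne : (a : ZMod r) ≠ (z : ZMod r) := fun h3 =>
          h2 r hr ((ZMod.intCast_zmod_eq_zero_iff_dvd _ r).1 (by
            push_cast
            rw [h3, sub_self]))
        obtain ⟨k, hk0, hk⟩ : ∃ k : ZMod r, k ≠ 0 ∧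
            (k * (a : ZMod r)) ^ q - (k * (z : ZMod r)) ^ q +
              (if q = p then (q : ZMod r) - 1 else (q : ZMod r) ^ 2 - 1) *
                (k * (a : ZMod r) - k * (z : ZMod r)) ≠ 0 := by
          by_cases hqp : q = p
          · rw [if_pos hqp]
            exact choice_p hq (fun h3 => hqS (h3 ▸ hr)) hne
          · rw [if_neg hqp]
            exact choice hq (fun h3 => hqS (h3 ▸ hr)) (by
              intro h3 h4
              have := hlt r hr
              omega) hne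
        refine ⟨k.val, fun _ => ⟨fun h3 => hk0 ?_, fun n hn h3 => hk ?_⟩⟩
        · rw [← ZMod.natCast_eq_zero_iff, ZMod.natCast_val, ZMod.cast_id] at h3
          exact h3
        · have h4 : (n : ZMod r) = k := by
            rw [(ZMod.natCast_eq_natCast_iff n k.val r).2 hn, ZMod.natCast_val, ZMod.cast_id]
          have h5 := (ZMod.intCast_zmod_eq_zero_iff_dvd _ r).2 h3
          push_cast at h5
          rw [h4] at h5
          exact h5
      · exact ⟨0, fun h3 => (hr h3).elim⟩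
    choose k hk using hch
    have hcrt : ∃ n : ℕ, (∀ r ∈ S, n ≡ k r [MOD r]) ∧ n ≡ 1 [MOD q] ∧
        (p ∉ S → n ≡ 1 [MOD p]) := by
      let T : Finset ℕ := insert p (insert q S)
      have hT : ∀ r ∈ T, r.Prime := by
        intro r hr
        rcases Finset.mem_insert.1 hr with rfl | hr
        · exact hp
        rcases Finset.mem_insert.1 hr with rfl | hr
        · exact hq
        · exact hS r hr
      obtain ⟨n, hn⟩ := Nat.chineseRemainderOfFinset (fun r => if r ∈ S then k r else 1)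
        (fun r => r) T (fun r hr => (hT r hr).ne_zero) (by
          intro r hr s hs hrs
          exact (Nat.coprime_primes (hT r hr) (hT s hs)).2 hrs)
      refine ⟨n, fun r hr => ?_, ?_, fun hpS => ?_⟩
      · have h3 := hn r (Finset.mem_insert_of_mem (Finset.mem_insert_of_mem hr))
        rwa [if_pos hr] at h3
      · have h3 := hn q (Finset.mem_insert_of_mem (Finset.mem_insert_self _ _))
        rwa [if_neg hqS] at h3
      · have h3 := hn p (Finset.mem_insert_self _ _)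
        rwa [if_neg hpS] at h3
    obtain ⟨n, hn1, hn2, hn3⟩ := hcrt
    have hnp : ¬ p ∣ n := by
      intro h3
      by_cases hpS : p ∈ S
      · apply (hk p hpS).1
        have h4 : k p ≡ 0 [MOD p] := (hn1 p hpS).symm.trans ((Nat.modEq_zero_iff_dvd).2 h3)
        exact (Nat.modEq_zero_iff_dvd).1 h4
      · have h4 : 1 ≡ 0 [MOD p] := (hn3 hpS).symm.trans ((Nat.modEq_zero_iff_dvd).2 h3)
        exact hp.one_lt.ne' (Nat.dvd_one.1 ((Nat.modEq_zero_iff_dvd).1 h4))
    have hnq : ¬ q ∣ n := by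
      intro h3
      have h4 : 1 ≡ 0 [MOD q] := hn2.symm.trans ((Nat.modEq_zero_iff_dvd).2 h3)
      exact hq.one_lt.ne' (Nat.dvd_one.1 ((Nat.modEq_zero_iff_dvd).1 h4))
    have hn0 : 0 < n := Nat.pos_of_ne_zero fun h3 => hnp (h3 ▸ dvd_zero p)
    obtain ⟨A, Z, h3, h4, h5⟩ := hC.wr q hq _ _ (hC.scale n hn0 hnp a z h)
    have : Fact q.Prime := ⟨hq⟩
    refine ih A Z h3 (drop hq hnq
      (c := if q = p then (q : ℤ) - 1 else (q : ℤ) ^ 2 - 1) (by split_ifs <;> simp) haz h1 h4 h5)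
      (fun r hr h6 => ?_)
    refine (hk r hr).2 n (hn1 r hr) ?_
    have h7 : ((n : ℤ) * a) ^ q - (n * z) ^ q +
        (if q = p then (q : ℤ) - 1 else (q : ℤ) ^ 2 - 1) * (n * a - n * z) =
        (q : ℤ) * (A - Z) := by linear_combination h5 - h4
    rw [h7]
    exact h6.mul_left _

/-- separation at the primes of a finite set -/
theorem sep {p : ℕ} (hp : p.Prime) {Pr : ℤ → ℤ → Prop} (hC : Cld p Pr) (S : Finset ℕ) :
    (∀ r ∈ S, r.Prime) → ∀ a z : ℤ, Pr a z → a ≠ z →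
      ∃ a' z' : ℤ, Pr a' z' ∧ a' ≠ z' ∧ ∀ r ∈ S, ¬ (r : ℤ) ∣ a' - z' := by
  induction S using Finset.induction_on_max with
  | empty =>
    intro _ a z h hne
    exact ⟨a, z, h, hne, fun r hr => absurd hr (Finset.notMem_empty r)⟩
  | insert q S hlt ih =>
    intro hS a z h hne
    obtain ⟨a, z, h, hne, h2⟩ := ih (fun r hr => hS r (Finset.mem_insert_of_mem hr)) a z h hne
    have hq := hS q (Finset.mem_insert_self _ _)
    obtain ⟨v, hv⟩ := exists_pow hq (sub_ne_zero.2 hne)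
    obtain ⟨a', z', h3, h4⟩ := one_more hp hC hq S
      (fun r hr => hS r (Finset.mem_insert_of_mem hr)) hlt v a z h hv h2
    refine ⟨a', z', h3, fun h6 => ?_, h4⟩
    refine h4 q (Finset.mem_insert_self _ _) ?_
    rw [h6, sub_self]
    exact dvd_zero _

theorem sep_coprime {p m : ℕ} (hp : p.Prime) (hm0 : m ≠ 0)
    {Pr : ℤ → ℤ → Prop} (hC : Cld p Pr) {a z : ℤ} (h : Pr a z) (hne : a ≠ z) :
    ∃ a' z' : ℤ, Pr a' z' ∧ IsCoprime (z' - a') (m : ℤ) := by
  obtain ⟨a, z, h, -, hS⟩ := sep hp hC m.primeFactors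
    (fun r hr => Nat.prime_of_mem_primeFactors hr) a z h hne
  refine ⟨a, z, h, ?_⟩
  rw [Int.isCoprime_iff_gcd_eq_one]
  by_contra h1
  obtain ⟨q, hq, hqd⟩ := Nat.exists_prime_and_dvd h1
  have h2 : (q : ℤ) ∣ z - a := (Int.natCast_dvd_natCast.2 hqd).trans (Int.gcd_dvd_left ..)
  have h3 : (q : ℤ) ∣ (m : ℤ) := (Int.natCast_dvd_natCast.2 hqd).trans (Int.gcd_dvd_right ..)
  refine hS q (Nat.mem_primeFactors.2 ⟨hq, Int.natCast_dvd_natCast.1 h3, hm0⟩) ?_
  rw [← neg_sub]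
  exact h2.neg_right

theorem lifts {p m : ℕ} (hm0 : m ≠ 0) (hpm : p ∣ m) (hp1 : p ≠ 1) {Pr : ℤ → ℤ → Prop}
    (hC : Cld p Pr) {h' : ℕ} (hco : h'.Coprime m) (hh : Pr (p * h') (p * h')) {a z : ℤ}
    (h : Pr a z) : ∃ a' z' : ℤ, Pr a' z' ∧ (m : ℤ) ∣ a' - p * a ∧ (m : ℤ) ∣ z' - p * z := by
  obtain ⟨u, w, huw⟩ := Nat.isCoprime_iff_coprime.2 hco
  have hm0' : (m : ℤ) ≠ 0 := by exact_mod_cast hm0
  obtain ⟨c, hc⟩ : ∃ c : ℕ, (c : ℤ) = u % m :=
    ⟨(u % m).toNat, Int.toNat_of_nonneg (Int.emod_nonneg _ hm0')⟩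
  have hcu : (m : ℤ) ∣ c * h' - 1 := by
    have h1 : (m : ℤ) ∣ u - u % m := Int.dvd_self_sub_emod
    obtain ⟨k, hk⟩ := h1
    rw [hc]
    refine ⟨-w - k * h', ?_⟩
    linear_combination huw - (h' : ℤ) * hk
  have hc2 : ¬ p ∣ c := by
    intro h1
    have h2 : (p : ℤ) ∣ c * h' - 1 := (Int.natCast_dvd_natCast.2 hpm).trans hcu
    have h3 : (p : ℤ) ∣ c * h' := (Int.natCast_dvd_natCast.2 h1).mul_right _
    have h4 := dvd_sub h3 h2
    rw [sub_sub_cancel] at h4
    exact hp1 (Nat.dvd_one.1 (by exact_mod_cast h4))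
  have hc0 : 0 < c := Nat.pos_of_ne_zero fun h1 => hc2 (h1 ▸ dvd_zero p)
  refine ⟨c * (p * h' * a), c * (p * h' * z),
    hC.scale c hc0 hc2 _ _ (hC.mul _ _ _ _ hh h), ?_, ?_⟩
  · have h4 : (c : ℤ) * (p * h' * a) - p * a = (c * h' - 1) * (p * a) := by ring
    rw [h4]
    exact hcu.mul_right _
  · have h4 : (c : ℤ) * (p * h' * z) - p * z = (c * h' - 1) * (p * z) := by ring
    rw [h4]
    exact hcu.mul_right _

theorem exH {p m : ℕ} (hp : p.Prime) (hm0 : m ≠ 0)
    {Pr : ℤ → ℤ → Prop} (hC : Cld p Pr) :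
    ∃ h' : ℕ, h'.Coprime m ∧ Pr (p * h') (p * h') := by
  obtain ⟨e, M, hM, hmM⟩ := Nat.exists_eq_pow_mul_and_not_dvd hm0 p hp.ne_one
  have hrM : ∀ r : ℕ, r.Prime → r ∣ m → r ≠ p → r ∣ M := by
    intro r hr hrm hrp
    rw [hmM] at hrm
    rcases (Nat.Prime.dvd_mul hr).1 hrm with h1 | h1
    · exact absurd ((Nat.prime_dvd_prime_iff_eq hr hp).1 (hr.dvd_of_dvd_pow h1)) hrp
    · exact h1
  by_cases hp2 : p = 2
  · subst hp2
    have hco : M.Coprime 8 := by
      have : (8 : ℕ) = 2 ^ 3 := rfl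
      rw [this]
      exact (Nat.Coprime.pow_right _ (((Nat.Prime.coprime_iff_not_dvd Nat.prime_two).2 hM).symm))
    obtain ⟨n, hn1, hn2⟩ := Nat.chineseRemainder hco 1 3
    have hn4 : n % 8 = 3 := hn2
    obtain ⟨u, hu⟩ : ∃ u, n = 3 + 8 * u := ⟨n / 8, by omega⟩
    obtain ⟨A, Z, h1, h2, h3⟩ := hC.wr 2 Nat.prime_two _ _ (hC.cyc n (by omega) (by omega))
    rw [if_pos rfl] at h2 h3
    have hA : A = 2 * ((n * (2 * u + 1) : ℕ) : ℤ) := by
      have h4 : 2 * A = 2 * (2 * ((n * (2 * u + 1) : ℕ) : ℤ)) := by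
        push_cast at h2
        rw [h2]
        have h5 : (n : ℤ) = 3 + 8 * u := by exact_mod_cast hu
        push_cast
        linear_combination (n : ℤ) * h5
      linarith
    have hZ : Z = A := by
      have h4 : (2 : ℤ) * Z = 2 * A := by
        push_cast at h2 h3
        rw [h2, h3]
      linarith
    rw [hZ, hA] at h1
    refine ⟨n * (2 * u + 1), coprime_of fun r hr hrm h4 => ?_, by exact_mod_cast h1⟩
    by_cases hr2 : r = 2
    · subst hr2
      rcases (Nat.Prime.dvd_mul hr).1 h4 with h5 | h5 <;> omega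
    · have h5 : n ≡ 1 [MOD r] := hn1.of_dvd (hrM r hr hrm hr2)
      rcases (Nat.Prime.dvd_mul hr).1 h4 with h6 | h6
      · have h7 : 1 ≡ 0 [MOD r] := h5.symm.trans ((Nat.modEq_zero_iff_dvd).2 h6)
        exact hr.one_lt.ne' (Nat.dvd_one.1 ((Nat.modEq_zero_iff_dvd).1 h7))
      · have h7 : r ∣ n + 1 := by
          have h8 : n + 1 = 4 * (2 * u + 1) := by omega
          rw [h8]
          exact h6.mul_left 4
        have h8 : 2 ≡ 0 [MOD r] := (h5.add_right 1).symm.trans ((Nat.modEq_zero_iff_dvd).2 h7)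
        exact hr2 ((Nat.prime_dvd_prime_iff_eq hr Nat.prime_two).1
          ((Nat.modEq_zero_iff_dvd).1 h8))
  by_cases hp3 : p = 3
  · subst hp3
    have hco : M.Coprime 27 := by
      have : (27 : ℕ) = 3 ^ 3 := rfl
      rw [this]
      exact (Nat.Coprime.pow_right _ (((Nat.Prime.coprime_iff_not_dvd Nat.prime_three).2 hM).symm))
    obtain ⟨n, hn1, hn2⟩ := Nat.chineseRemainder hco 1 4
    have hn4 : n % 27 = 4 := hn2
    obtain ⟨u, hu⟩ : ∃ u, n = 4 + 27 * u := ⟨n / 27, by omega⟩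
    have hn3 : n ^ 2 + 2 = 9 * (2 + 24 * u + 81 * u ^ 2) := by
      rw [hu]
      ring
    obtain ⟨A, Z, h1, h2, h3⟩ := hC.wr 3 Nat.prime_three _ _ (hC.cyc n (by omega) (by omega))
    rw [if_pos rfl] at h2 h3
    have hA : A = 3 * ((n * (2 + 24 * u + 81 * u ^ 2) : ℕ) : ℤ) := by
      have h4 : 3 * A = 3 * (3 * ((n * (2 + 24 * u + 81 * u ^ 2) : ℕ) : ℤ)) := by
        push_cast at h2
        rw [h2]
        have h5 : (n : ℤ) ^ 2 + 2 = 9 * (2 + 24 * u + 81 * u ^ 2) := by exact_mod_cast hn3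
        push_cast
        linear_combination (n : ℤ) * h5
      linarith
    have hZ : Z = A := by
      have h4 : (3 : ℤ) * Z = 3 * A := by
        push_cast at h2 h3
        rw [h2, h3]
      linarith
    rw [hZ, hA] at h1
    refine ⟨n * (2 + 24 * u + 81 * u ^ 2), coprime_of fun r hr hrm h4 => ?_,
      by exact_mod_cast h1⟩
    by_cases hr2 : r = 3
    · subst hr2
      rcases (Nat.Prime.dvd_mul hr).1 h4 with h5 | h5
      · omega
      · have h6 : 3 ∣ 24 * u + 81 * u ^ 2 := ⟨8 * u + 27 * u ^ 2, by ring⟩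
        have h7 : 2 + 24 * u + 81 * u ^ 2 = 2 + (24 * u + 81 * u ^ 2) := by ring
        rw [h7] at h5
        have h8 := (Nat.dvd_add_left h6).1 h5
        omega
    · have h5 : n ≡ 1 [MOD r] := hn1.of_dvd (hrM r hr hrm hr2)
      rcases (Nat.Prime.dvd_mul hr).1 h4 with h6 | h6
      · have h7 : 1 ≡ 0 [MOD r] := h5.symm.trans ((Nat.modEq_zero_iff_dvd).2 h6)
        exact hr.one_lt.ne' (Nat.dvd_one.1 ((Nat.modEq_zero_iff_dvd).1 h7))
      · have h7 : r ∣ n ^ 2 + 2 := by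
          rw [hn3]
          exact h6.mul_left 9
        have h8 : 1 ^ 2 + 2 ≡ 0 [MOD r] :=
          ((h5.pow 2).add_right 2).symm.trans ((Nat.modEq_zero_iff_dvd).2 h7)
        exact hr2 ((Nat.prime_dvd_prime_iff_eq hr Nat.prime_three).1
          ((Nat.modEq_zero_iff_dvd).1 h8))
  · have hp5 : 4 < p := by
      have h1 := hp.two_le
      by_contra h2
      have h3 : p = 4 := by omega
      subst h3
      revert hp
      decide
    have hp4 : (4 * M).Coprime (p ^ 2) := by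
      refine Nat.Coprime.pow_right _ ((Nat.Prime.coprime_iff_not_dvd hp).2 ?_).symm
      rw [hp.dvd_mul]
      rintro (h1 | h1)
      · have := Nat.le_of_dvd (by norm_num) h1
        omega
      · exact hM h1
    obtain ⟨n, hn1, hn2⟩ := Nat.chineseRemainder hp4 (4 * M - 1) (p - 3)
    have hM0 : 0 < M := Nat.pos_of_ne_zero fun h => hM (h ▸ dvd_zero p)
    have hn3 : 4 * M ∣ n + 1 := by
      have h1 := hn1.add_right 1
      rw [Nat.sub_add_cancel (by omega)] at h1
      exact (Nat.modEq_zero_iff_dvd).1 (h1.trans ((Nat.modEq_zero_iff_dvd).2 dvd_rfl))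
    have hn5 : (4 : ℕ) ∣ n + 1 := (dvd_mul_right 4 M).trans hn3
    have hn6 : M ∣ n + 1 := (dvd_mul_left M 4).trans hn3
    have hn4 : n + 3 ≡ p [MOD p ^ 2] := by
      have h1 := hn2.add_right 3
      rwa [Nat.sub_add_cancel (by omega)] at h1
    obtain ⟨w, hw⟩ : p ∣ n + 3 := by
      have h1 : n + 3 ≡ p [MOD p] := hn4.of_dvd (dvd_pow_self p two_ne_zero)
      exact (Nat.modEq_zero_iff_dvd).1 (h1.trans ((Nat.modEq_zero_iff_dvd).2 dvd_rfl))
    have hpw : ¬ p ∣ w := by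
      rintro ⟨k, rfl⟩
      have h1 : p ≡ 0 [MOD p ^ 2] := by
        refine hn4.symm.trans ((Nat.modEq_zero_iff_dvd).2 ?_)
        rw [hw, sq]
        exact mul_dvd_mul_left _ (dvd_mul_right _ _)
      have h2 := (Nat.modEq_zero_iff_dvd).1 h1
      have h3 := Nat.le_of_dvd hp.pos h2
      nlinarith [hp.two_le]
    have hpodd : ¬ 2 ∣ p := fun h1 => hp2 ((Nat.prime_dvd_prime_iff_eq Nat.prime_two hp).1 h1).symm
    obtain ⟨w', rfl⟩ : 2 ∣ w := by
      have h1 : 2 ∣ p * w := by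
        rw [← hw]
        omega
      exact ((Nat.Prime.dvd_mul Nat.prime_two).1 h1).resolve_left hpodd
    have hpn : ¬ p ∣ n := by
      intro h1
      have h2 : p ∣ 3 := (Nat.dvd_add_right h1).1 ⟨_, hw⟩
      have := Nat.le_of_dvd (by norm_num) h2
      omega
    obtain ⟨A, Z, h1, h2, h3⟩ := hC.wr 2 Nat.prime_two _ _ (hC.cyc n (by omega) hpn)
    rw [if_neg (Ne.symm hp2)] at h2 h3
    have hw' : (n : ℤ) + 3 = p * (2 * w') := by exact_mod_cast hw
    have hA : A = p * ((n * w' : ℕ) : ℤ) := by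
      have h4 : 2 * A = 2 * (p * ((n * w' : ℕ) : ℤ)) := by
        push_cast at h2
        rw [h2]
        push_cast
        linear_combination (n : ℤ) * hw'
      linarith
    have hZ : Z = A := by
      have h4 : (2 : ℤ) * Z = 2 * A := by
        push_cast at h2 h3
        rw [h2, h3]
      linarith
    rw [hZ, hA] at h1
    refine ⟨n * w', coprime_of fun r hr hrm h4 => ?_, by exact_mod_cast h1⟩
    by_cases hrp : r = p
    · subst hrp
      rcases (Nat.Prime.dvd_mul hr).1 h4 with h5 | h5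
      · exact hpn h5
      · exact hpw (h5.mul_left 2)
    · have h5 := (hrM r hr hrm hrp).trans hn6
      rcases (Nat.Prime.dvd_mul hr).1 h4 with h6 | h6
      · exact hr.one_lt.ne' (Nat.dvd_one.1 ((Nat.dvd_add_right h6).1 h5))
      · have h7 : r ∣ n + 3 := by
          rw [hw]
          exact (h6.mul_left 2).mul_left p
        have h8 : r ∣ 2 := by
          have h9 : n + 3 = (n + 1) + 2 := by ring
          rw [h9] at h7
          exact (Nat.dvd_add_right h5).1 h7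
        have h9 := (Nat.prime_dvd_prime_iff_eq hr Nat.prime_two).1 h8
        subst h9
        obtain ⟨k, rfl⟩ := h6
        have h10 : 4 ∣ n + 3 := by
          rw [hw]
          exact ⟨p * k, by ring⟩
        omega

theorem multiple {p m : ℕ} (hp : p.Prime) (hm0 : m ≠ 0)
    {Pr : ℤ → ℤ → Prop} (hC : Cld p Pr) :
    ∀ k : ℕ, 0 < k → ∀ a z : ℤ, Pr a z →
      ∃ a' z' : ℤ, Pr a' z' ∧ (m : ℤ) ∣ a' - k * a ∧ (m : ℤ) ∣ z' - k * z := by
  by_cases hpm : p ∣ m
  · obtain ⟨h', hco, hh⟩ := exH hp hm0 hC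
    intro k
    induction k using Nat.strong_induction_on with
    | _ k ih =>
      intro hk a z h
      by_cases h2 : p ∣ k
      · obtain ⟨j, rfl⟩ := h2
        have hj : 0 < j := Nat.pos_of_ne_zero fun h3 => by
          rw [h3, mul_zero] at hk
          exact lt_irrefl 0 hk
        obtain ⟨a1, z1, h3, h4, h5⟩ := lifts hm0 hpm hp.ne_one hC hco hh h
        obtain ⟨a2, z2, h6, h7, h8⟩ := ih j (by nlinarith [hp.two_le]) hj a1 z1 h3
        refine ⟨a2, z2, h6, ?_, ?_⟩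
        · have h9 : a2 - ((p * j : ℕ) : ℤ) * a = (a2 - j * a1) + j * (a1 - p * a) := by
            push_cast
            ring
          rw [h9]
          exact dvd_add h7 (h4.mul_left _)
        · have h9 : z2 - ((p * j : ℕ) : ℤ) * z = (z2 - j * z1) + j * (z1 - p * z) := by
            push_cast
            ring
          rw [h9]
          exact dvd_add h8 (h5.mul_left _)
      · exact ⟨k * a, k * z, hC.scale k hk h2 a z h, by simp, by simp⟩
  · intro k hk a z h
    have hmp : m.Coprime p := ((Nat.Prime.coprime_iff_not_dvd hp).2 hpm).symm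
    obtain ⟨n, hn1, hn2⟩ := Nat.chineseRemainder hmp k 1
    have hnp : ¬ p ∣ n := by
      intro h3
      have h4 : 1 ≡ 0 [MOD p] := hn2.symm.trans ((Nat.modEq_zero_iff_dvd).2 h3)
      exact hp.one_lt.ne' (Nat.dvd_one.1 ((Nat.modEq_zero_iff_dvd).1 h4))
    have hn0 : 0 < n := Nat.pos_of_ne_zero fun h3 => hnp (h3 ▸ dvd_zero p)
    have h4 : (m : ℤ) ∣ n - k := Nat.modEq_iff_dvd.1 hn1.symm
    refine ⟨n * a, n * z, hC.scale n hn0 hnp a z h, ?_, ?_⟩
    · rw [← sub_mul]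
      exact h4.mul_right _
    · rw [← sub_mul]
      exact h4.mul_right _

/-- **all residue classes occur** -/
theorem all_residues {p m : ℕ} (hp : p.Prime) (hm0 : m ≠ 0)
    {Pr : ℤ → ℤ → Prop} (hC : Cld p Pr) {a z : ℤ} (h : Pr a z) (hne : a ≠ z) (r : ℤ) :
    ∃ a' z' : ℤ, Pr a' z' ∧ (m : ℤ) ∣ z' - a' - r := by
  obtain ⟨a, z, h, u, w, huw⟩ := sep_coprime hp hm0 hC h hne
  have h1 : (m : ℤ) ≠ 0 := by exact_mod_cast hm0
  obtain ⟨k, hk0, hk⟩ : ∃ k : ℕ, 0 < k ∧ (m : ℤ) ∣ k - r * u := by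
    refine ⟨((r * u) % (m : ℤ)).toNat + m, by omega, ?_⟩
    have h2 := Int.toNat_of_nonneg (Int.emod_nonneg (r * u) h1)
    have h3 : (m : ℤ) ∣ r * u - (r * u) % (m : ℤ) := Int.dvd_self_sub_emod
    rw [Nat.cast_add, h2]
    have h4 : (r * u) % (m : ℤ) + (m : ℤ) - r * u =
        (m : ℤ) - (r * u - (r * u) % (m : ℤ)) := by ring
    rw [h4]
    exact dvd_sub dvd_rfl h3
  obtain ⟨a', z', h3, h4, h5⟩ := multiple hp hm0 hC k hk0 a z h
  refine ⟨a', z', h3, ?_⟩
  have h6 : z' - a' - r = (z' - k * z) - (a' - k * a) + (k - r * u) * (z - a) -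
      (m : ℤ) * (r * w) := by
    linear_combination r * huw
  rw [h6]
  exact dvd_sub (dvd_add (dvd_sub h5 h4) (hk.mul_right _)) (dvd_mul_right _ _)

end Pool.Agent.U259.AQ
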