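import Pool.Agent.U259.AQ.Pow
import Pool.Agent.U259.WD.Dia

/-!
# The number of `p`-regular classes of `G ≀ C_q`
-/

set_option autoImplicit false
set_option linter.unusedSectionVars false

open scoped Classical BigOperators

noncomputable section

namespace Pool.Agent.U259.AQ

open Pool.Agent.Y63.AWC (numDefectZero numWeights numRegularClasses loc numDefectZero_congr
  card_mul_numWeights numWeights_congr card_mul_numRegularClasses numRegularClasses_congr)
open Pool.Agent.N85.WM (Wr Base shiftHom mem_base)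
open Pool.Agent.U259.WD (ga tt inl_tt conj_ga Phi Phi_bij mul_left_apply inv_left_apply conj_inl)
open SemidirectProduct (inl inr)

variable {q : ℕ} [hq : Fact q.Prime] {G : Type} [Group G]

/-- the automorphism given by the multiplication of the indices by `t` -/
def al (t : (ZMod q)ˣ) : Wr q G ≃* Wr q G where
  toFun x := ⟨fun i => x.left (t * i), Multiplicative.ofAdd ((t⁻¹ : (ZMod q)ˣ) * x.right.toAdd)⟩
  invFun x := ⟨fun i => x.left ((t⁻¹ : (ZMod q)ˣ) * i), Multiplicative.ofAdd (t * x.right.toAdd)⟩
  left_inv x := by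
    refine SemidirectProduct.ext ?_ ?_
    · funext i
      change x.left (t * ((t⁻¹ : (ZMod q)ˣ) * i)) = x.left i
      rw [← mul_assoc, Units.mul_inv, one_mul]
    · change Multiplicative.ofAdd ((t : ZMod q) * ((t⁻¹ : (ZMod q)ˣ) * x.right.toAdd)) = x.right
      rw [← mul_assoc, Units.mul_inv, one_mul, ofAdd_toAdd]
  right_inv x := by
    refine SemidirectProduct.ext ?_ ?_
    · funext i
      change x.left ((t⁻¹ : (ZMod q)ˣ) * (t * i)) = x.left i
      rw [← mul_assoc, Units.inv_mul, one_mul]
    · change Multiplicative.ofAdd (((t⁻¹ : (ZMod q)ˣ) : ZMod q) * (t * x.right.toAdd)) = x.right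
      rw [← mul_assoc, Units.inv_mul, one_mul, ofAdd_toAdd]
  map_mul' x y := by
    refine SemidirectProduct.ext ?_ ?_
    · funext i
      change (x * y).left (t * i) = x.left (t * i) *
        y.left (t * (i - (t⁻¹ : (ZMod q)ˣ) * x.right.toAdd))
      rw [mul_left_apply, mul_sub, ← mul_assoc (t : ZMod q) (t⁻¹ : (ZMod q)ˣ), Units.mul_inv,
        one_mul]
    · change Multiplicative.ofAdd (((t⁻¹ : (ZMod q)ˣ) : ZMod q) *
        (x.right.toAdd + y.right.toAdd)) = Multiplicative.ofAdd
          ((t⁻¹ : (ZMod q)ˣ) * x.right.toAdd) * Multiplicative.ofAdd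
            ((t⁻¹ : (ZMod q)ˣ) * y.right.toAdd)
      rw [mul_add, ofAdd_add]

theorem al_right (t : (ZMod q)ˣ) (x : Wr q G) : (al t x).right = 1 ↔ x.right = 1 := by
  change Multiplicative.ofAdd (((t⁻¹ : (ZMod q)ˣ) : ZMod q) * x.right.toAdd) = 1 ↔ _
  rw [ofAdd_eq_one, Units.mul_right_eq_zero, toAdd_eq_zero]

/-- the powers of `(a, 1, …, 1) t` -/
theorem ga_left (a : G) (i : ZMod q) : (ga a : Wr q G).left i = if i = 0 then a else 1 := by
  unfold ga
  rw [mul_left_apply]
  simp

theorem ga_right (a : G) : (ga a : Wr q G).right = Multiplicative.ofAdd 1 := by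
  unfold ga
  simp

theorem pow_right (x : Wr q G) (k : ℕ) : (x ^ k).right = x.right ^ k :=
  map_pow (SemidirectProduct.rightHom : Wr q G →* _) x k

theorem ga_pow_left (a : G) (k : ℕ) (hk : k < q) : ((ga a : Wr q G) ^ (k + 1)).left 0 = a := by
  induction k with
  | zero =>
    rw [zero_add, pow_one, ga_left, if_pos rfl]
  | succ k ih =>
    rw [pow_succ, mul_left_apply, ih (by omega), ga_left, pow_right, ga_right, if_neg, mul_one]
    rw [zero_sub, neg_eq_zero, toAdd_pow, toAdd_ofAdd, nsmul_eq_mul, mul_one]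
    intro h
    rw [ZMod.natCast_eq_zero_iff] at h
    exact absurd (Nat.le_of_dvd (Nat.succ_pos k) h) (by omega)

/-- the elements of the base group commuting with `(a, 1, …, 1) t` -/
theorem comm_ga {a : G} {x : ZMod q → G} :
    (inl x : Wr q G) * ga a = ga a * inl x ↔ (∀ i, x i = x 0) ∧ x 0 * a = a * x 0 := by
  have : NeZero q := ⟨hq.out.ne_zero⟩
  have h0 : (inl x : Wr q G) * ga a = ga a * inl x ↔
      ∀ i, (if i = 0 then a else 1) * x (i - 1) = x i * (if i = 0 then a else 1) := by
    constructor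
    · intro h i
      have h1 := congrFun (congrArg SemidirectProduct.left h) i
      rw [mul_left_apply, mul_left_apply, ga_left, ga_left, ga_right, toAdd_ofAdd] at h1
      have h2 : (inl x : Wr q G).right.toAdd = 0 := rfl
      rw [h2, sub_zero] at h1
      exact h1.symm
    · intro h
      refine SemidirectProduct.ext ?_ ?_
      · funext i
        rw [mul_left_apply, mul_left_apply, ga_left, ga_left, ga_right, toAdd_ofAdd]
        have h2 : (inl x : Wr q G).right.toAdd = 0 := rfl
        rw [h2, sub_zero]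
        exact (h i).symm
      · change 1 * (ga a : Wr q G).right = (ga a : Wr q G).right * 1
        rw [one_mul, mul_one]
  rw [h0]
  constructor
  · intro h
    have h1 : ∀ k : ℕ, k < q → x (k : ZMod q) = x 0 := by
      intro k
      induction k with
      | zero =>
        intro _
        rw [Nat.cast_zero]
      | succ k ih =>
        intro hk
        have h2 := h ((k + 1 : ℕ) : ZMod q)
        have h3 : ((k + 1 : ℕ) : ZMod q) ≠ 0 := by
          intro h4
          rw [ZMod.natCast_eq_zero_iff] at h4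
          exact absurd (Nat.le_of_dvd (Nat.succ_pos k) h4) (by omega)
        rw [if_neg h3, one_mul, mul_one, Nat.cast_succ, add_sub_cancel_right, ih (by omega)] at h2
        rw [Nat.cast_succ]
        exact h2.symm
    have h2 : ∀ i, x i = x 0 := by
      intro i
      rw [← ZMod.natCast_zmod_val i]
      exact h1 _ (ZMod.val_lt i)
    refine ⟨h2, ?_⟩
    have h3 := h 0
    rw [if_pos rfl, h2 (0 - 1)] at h3
    exact h3.symm
  · rintro ⟨h1, h2⟩ i
    rw [h1 (i - 1), h1 i]
    split_ifs
    · exact h2.symm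
    · rw [one_mul, mul_one]

theorem ga_pow (a : G) : (ga a : Wr q G) ^ q = inl fun _ => a := by
  have h1 : ((ga a : Wr q G) ^ q).right = 1 := by
    rw [pow_right, ga_right, ← ofAdd_nsmul, nsmul_eq_mul, mul_one, CharP.cast_eq_zero, ofAdd_zero]
  obtain ⟨x, hx⟩ : ∃ x : ZMod q → G, (ga a : Wr q G) ^ q = inl x := by
    refine ⟨((ga a : Wr q G) ^ q).left, SemidirectProduct.ext rfl ?_⟩
    rw [h1]
    rfl
  have h2 : (inl x : Wr q G) * ga a = ga a * inl x := by
    rw [← hx, ← pow_succ, ← pow_succ']
  obtain ⟨h3, -⟩ := comm_ga.1 h2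
  have h4 : x 0 = a := by
    have h5 := ga_pow_left (q := q) a (q - 1) (Nat.sub_lt hq.out.pos one_pos)
    rw [Nat.sub_add_cancel hq.out.one_le, hx] at h5
    exact h5
  rw [hx]
  congr 1
  funext i
  rw [h3 i, h4]

theorem order_const (a : G) : orderOf (inl (fun _ => a) : Wr q G) = orderOf a := by
  have : NeZero q := ⟨hq.out.ne_zero⟩
  rw [orderOf_injective (inl : (ZMod q → G) →* Wr q G) SemidirectProduct.inl_injective]
  refine Nat.dvd_antisymm ?_ ?_
  · rw [orderOf_dvd_iff_pow_eq_one]
    funext i
    exact pow_orderOf_eq_one a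
  · rw [orderOf_dvd_iff_pow_eq_one]
    exact congrFun (pow_orderOf_eq_one (fun _ : ZMod q => a)) 0

theorem order_ga {p : ℕ} [hp : Fact p.Prime] (hqp : q ≠ p) (a : G) :
    p ∣ orderOf (ga a : Wr q G) ↔ p ∣ orderOf a := by
  have h1 : orderOf ((ga a : Wr q G) ^ q) = orderOf a := by
    rw [ga_pow, order_const]
  constructor
  · intro h
    have h2 : orderOf (ga a : Wr q G) ∣ q * orderOf ((ga a : Wr q G) ^ q) := by
      rw [orderOf_dvd_iff_pow_eq_one, pow_mul]
      exact pow_orderOf_eq_one _
    rcases (Nat.Prime.dvd_mul hp.out).1 (h.trans h2) with h3 | h3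
    · exact (hqp ((Nat.prime_dvd_prime_iff_eq hp.out hq.out).1 h3).symm).elim
    · rwa [h1] at h3
  · intro h
    rw [← h1] at h
    exact h.trans (orderOf_pow_dvd q)

end Pool.Agent.U259.AQ
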