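import Pool.Agent.U259.KQ.Fac

/-!
# Weights and direct products
-/

set_option autoImplicit false
set_option linter.unusedSectionVars false

open scoped Classical BigOperators

noncomputable section

namespace Pool.Agent.U259.AQ

open Pool.Agent.Y63.AWC (numDefectZero numWeights numRegularClasses loc numDefectZero_congr
  card_mul_numWeights numWeights_congr)
open Pool.Agent.Y63.KR (conjSub conj_mem_conjSub mem_conjSub conjSub_eq_iff defectZero_normal)
open Pool.Agent.U259.KR (dz_prod)
open Pool.Agent.U259.KQ (cyc)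

variable {p : ℕ} [hp : Fact p.Prime]

/-- the local numbers through a homomorphism -/
theorem loc_of_hom {G H : Type} [Group G] [Group H] (Q : Subgroup G)
    (f : Subgroup.normalizer (Q : Set G) →* H) (hs : Function.Surjective f)
    (hk : ∀ x, f x = 1 ↔ (x : G) ∈ Q) : loc p Q = numDefectZero p H := by
  have h1 : f.ker = Q.subgroupOf (Subgroup.normalizer (Q : Set G)) := by
    ext x
    rw [MonoidHom.mem_ker, hk, Subgroup.mem_subgroupOf]
  unfold loc
  exact numDefectZero_congr ((QuotientGroup.quotientMulEquivOfEq h1.symm).trans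
    (QuotientGroup.quotientKerEquivOfSurjective f hs))

/-- a subgroup which is not radical -/
theorem loc_zero {G : Type} [Group G] [Finite G] {Q R : Subgroup G} (hR : IsPGroup p R)
    (hlt : Q < R) (hn : ∀ g ∈ Subgroup.normalizer (Q : Set G), conjSub g R = R) : loc p Q = 0 := by
  have _f : Fintype G := Fintype.ofFinite G
  have hnil : Group.IsNilpotent R := hR.isNilpotent
  have hlt' : Q.subgroupOf R < ⊤ := by
    rw [lt_top_iff_ne_top]
    intro h
    rw [Subgroup.subgroupOf_eq_top] at h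
    exact absurd h (not_le_of_gt hlt)
  have h1 := Group.normalizerCondition_of_isNilpotent (Q.subgroupOf R) hlt'
  obtain ⟨x, hx1, hx2⟩ := SetLike.exists_of_lt h1
  have hxQ : (x : G) ∉ Q := fun h => hx2 (Subgroup.mem_subgroupOf.2 h)
  have hxN : (x : G) ∈ Subgroup.normalizer (Q : Set G) := by
    rw [Subgroup.mem_normalizer_iff] at hx1 ⊢
    intro y
    by_cases hy : y ∈ R
    · have h2 := hx1 ⟨y, hy⟩
      rw [Subgroup.mem_subgroupOf, Subgroup.mem_subgroupOf] at h2
      exact h2
    · constructor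
      · intro h2
        exact absurd (hlt.le h2) hy
      · intro h2
        exfalso
        apply hy
        have h3 := R.mul_mem (R.mul_mem (R.inv_mem x.2) (hlt.le h2)) x.2
        have h4 : (x : G)⁻¹ * ((x : G) * y * (x : G)⁻¹) * x = y := by group
        rw [h4] at h3
        exact h3
  let N := Subgroup.normalizer (Q : Set G)
  let M : Subgroup N := R.subgroupOf N
  have hMn : M.Normal := by
    constructor
    intro m hm g
    rw [Subgroup.mem_subgroupOf] at hm ⊢
    have h2 := conj_mem_conjSub (g := (g : G)) hm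
    rw [hn g g.2] at h2
    exact h2
  have hMp : IsPGroup p M := hR.comap_subtype
  have h5 := defectZero_normal (p := p) (P := M.map (QuotientGroup.mk' (Q.subgroupOf N)))
    (hMp.map _) (hMn.map _ (QuotientGroup.mk'_surjective _)) (by
      intro h6
      have h7 : (QuotientGroup.mk' (Q.subgroupOf N)) ⟨x, hxN⟩ ∈
          M.map (QuotientGroup.mk' (Q.subgroupOf N)) := ⟨⟨x, hxN⟩, x.2, rfl⟩
      rw [h6, Subgroup.mem_bot] at h7
      change ((⟨x, hxN⟩ : N) : N ⧸ Q.subgroupOf N) = 1 at h7
      rw [QuotientGroup.eq_one_iff, Subgroup.mem_subgroupOf] at h7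
      exact hxQ h7)
  exact h5

section prod

variable {G K : Type} [Group G] [Group K]

theorem mem_norm_prod (A : Subgroup G) (B : Subgroup K) (x : G × K) :
    x ∈ Subgroup.normalizer ((A.prod B : Subgroup (G × K)) : Set (G × K)) ↔
      x.1 ∈ Subgroup.normalizer (A : Set G) ∧ x.2 ∈ Subgroup.normalizer (B : Set K) := by
  rw [Subgroup.mem_normalizer_iff, Subgroup.mem_normalizer_iff, Subgroup.mem_normalizer_iff]
  constructor
  · intro h
    refine ⟨fun a => ?_, fun b => ?_⟩
    · have h1 := h (a, 1)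
      rw [Subgroup.mem_prod, Subgroup.mem_prod] at h1
      change (a ∈ A ∧ (1 : K) ∈ B) ↔ (x.1 * a * x.1⁻¹ ∈ A ∧ x.2 * 1 * x.2⁻¹ ∈ B) at h1
      rw [mul_one, mul_inv_cancel] at h1
      exact ⟨fun h2 => (h1.1 ⟨h2, B.one_mem⟩).1, fun h2 => (h1.2 ⟨h2, B.one_mem⟩).1⟩
    · have h1 := h (1, b)
      rw [Subgroup.mem_prod, Subgroup.mem_prod] at h1
      change ((1 : G) ∈ A ∧ b ∈ B) ↔ (x.1 * 1 * x.1⁻¹ ∈ A ∧ x.2 * b * x.2⁻¹ ∈ B) at h1
      rw [mul_one, mul_inv_cancel] at h1
      exact ⟨fun h2 => (h1.1 ⟨A.one_mem, h2⟩).2, fun h2 => (h1.2 ⟨A.one_mem, h2⟩).2⟩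
  · rintro ⟨h1, h2⟩ y
    rw [Subgroup.mem_prod, Subgroup.mem_prod]
    exact and_congr (h1 y.1) (h2 y.2)

theorem card_norm_prod (A : Subgroup G) (B : Subgroup K) :
    Nat.card (Subgroup.normalizer ((A.prod B : Subgroup (G × K)) : Set (G × K))) =
      Nat.card (Subgroup.normalizer (A : Set G)) * Nat.card (Subgroup.normalizer (B : Set K)) := by
  rw [← Nat.card_prod]
  exact Nat.card_congr
    { toFun := fun x => (⟨x.1.1, ((mem_norm_prod A B x.1).1 x.2).1⟩,
        ⟨x.1.2, ((mem_norm_prod A B x.1).1 x.2).2⟩)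
      invFun := fun y => ⟨(y.1, y.2), (mem_norm_prod A B _).2 ⟨y.1.2, y.2.2⟩⟩
      left_inv := fun x => rfl
      right_inv := fun y => rfl }

theorem loc_prod [Finite G] [Finite K] (A : Subgroup G) (B : Subgroup K) :
    loc p (A.prod B) = loc p A * loc p B := by
  have _f1 : Fintype (Subgroup.normalizer (A : Set G) ⧸ A.subgroupOf (Subgroup.normalizer (A : Set G))) :=
    Fintype.ofFinite _
  have _f2 : Fintype (Subgroup.normalizer (B : Set K) ⧸ B.subgroupOf (Subgroup.normalizer (B : Set K))) :=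
    Fintype.ofFinite _
  rw [loc_of_hom (p := p) (A.prod B)
    (H := (Subgroup.normalizer (A : Set G) ⧸ A.subgroupOf (Subgroup.normalizer (A : Set G))) ×
      (Subgroup.normalizer (B : Set K) ⧸ B.subgroupOf (Subgroup.normalizer (B : Set K))))
    { toFun := fun x => ((⟨x.1.1, ((mem_norm_prod A B x.1).1 x.2).1⟩ :
          Subgroup.normalizer (A : Set G)), (⟨x.1.2, ((mem_norm_prod A B x.1).1 x.2).2⟩ :
          Subgroup.normalizer (B : Set K)))
      map_one' := rfl
      map_mul' := fun _ _ => rfl } ?_ ?_, dz_prod]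
  · rfl
  · rintro ⟨a, b⟩
    obtain ⟨a, rfl⟩ := QuotientGroup.mk_surjective a
    obtain ⟨b, rfl⟩ := QuotientGroup.mk_surjective b
    exact ⟨⟨(a, b), (mem_norm_prod A B _).2 ⟨a.2, b.2⟩⟩, rfl⟩
  · intro x
    change (_, _) = (1 : _ × _) ↔ _
    rw [Prod.ext_iff]
    change ((((⟨x.1.1, ((mem_norm_prod A B x.1).1 x.2).1⟩ :
          Subgroup.normalizer (A : Set G)) : _ ⧸ A.subgroupOf (Subgroup.normalizer (A : Set G))) = 1)
      ∧ (((⟨x.1.2, ((mem_norm_prod A B x.1).1 x.2).2⟩ :
          Subgroup.normalizer (B : Set K)) : _ ⧸ B.subgroupOf (Subgroup.normalizer (B : Set K))) = 1)) ↔ _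
    rw [QuotientGroup.eq_one_iff, QuotientGroup.eq_one_iff, Subgroup.mem_subgroupOf,
      Subgroup.mem_subgroupOf, Subgroup.mem_prod]

/-- the product of the projections -/
def pj (Q : Subgroup (G × K)) : Subgroup (G × K) :=
  (Q.map (MonoidHom.fst G K)).prod (Q.map (MonoidHom.snd G K))

theorem le_pj (Q : Subgroup (G × K)) : Q ≤ pj Q := fun x hx =>
  Subgroup.mem_prod.2 ⟨⟨x, hx, rfl⟩, ⟨x, hx, rfl⟩⟩

theorem pj_pg [Finite G] [Finite K] {Q : Subgroup (G × K)} (h : IsPGroup p Q) :
    IsPGroup p (pj Q) := by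
  have h1 : IsPGroup p (Q.map (MonoidHom.fst G K)) := h.map _
  have h2 : IsPGroup p (Q.map (MonoidHom.snd G K)) := h.map _
  obtain ⟨n1, hn1⟩ := IsPGroup.iff_card.1 h1
  obtain ⟨n2, hn2⟩ := IsPGroup.iff_card.1 h2
  refine IsPGroup.iff_card.2 ⟨n1 + n2, ?_⟩
  unfold pj
  rw [Nat.card_congr (Subgroup.prodEquiv _ _).toEquiv, Nat.card_prod, hn1, hn2, pow_add]

theorem pj_conj {Q : Subgroup (G × K)} {g : G × K}
    (h : g ∈ Subgroup.normalizer (Q : Set (G × K))) : conjSub g (pj Q) = pj Q := by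
  rw [conjSub_eq_iff]
  unfold pj
  rw [mem_norm_prod, Subgroup.mem_normalizer_iff, Subgroup.mem_normalizer_iff]
  rw [Subgroup.mem_normalizer_iff] at h
  constructor
  · intro a
    constructor
    · rintro ⟨x, hx, rfl⟩
      exact ⟨g * x * g⁻¹, (h x).1 hx, rfl⟩
    · rintro ⟨x, hx, hxa⟩
      refine ⟨g⁻¹ * x * g, (h _).2 ?_, ?_⟩
      · have h4 : g * (g⁻¹ * x * g) * g⁻¹ = x := by group
        rw [h4]
        exact hx
      · change g.1⁻¹ * x.1 * g.1 = a
        have h5 : x.1 = g.1 * a * g.1⁻¹ := hxa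
        rw [h5]
        group
  · intro a
    constructor
    · rintro ⟨x, hx, rfl⟩
      exact ⟨g * x * g⁻¹, (h x).1 hx, rfl⟩
    · rintro ⟨x, hx, hxa⟩
      refine ⟨g⁻¹ * x * g, (h _).2 ?_, ?_⟩
      · have h4 : g * (g⁻¹ * x * g) * g⁻¹ = x := by group
        rw [h4]
        exact hx
      · change g.2⁻¹ * x.2 * g.2 = a
        have h5 : x.2 = g.2 * a * g.2⁻¹ := hxa
        rw [h5]
        group

/-- **weights of direct products** -/
theorem w_prod [Finite G] [Finite K] :
    numWeights p (G × K) = numWeights p G * numWeights p K := by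
  have _f0 : Fintype (Subgroup (G × K)) := Fintype.ofFinite _
  have _f1 : Fintype (Subgroup G) := Fintype.ofFinite _
  have _f2 : Fintype (Subgroup K) := Fintype.ofFinite _
  have _f3 : Fintype {Q : Subgroup (G × K) // IsPGroup p Q} := Fintype.ofFinite _
  have _f4 : Fintype {Q : Subgroup G // IsPGroup p Q} := Fintype.ofFinite _
  have _f5 : Fintype {Q : Subgroup K // IsPGroup p Q} := Fintype.ofFinite _
  have h := card_mul_numWeights p (G × K)
  have h1 := card_mul_numWeights p G
  have h2 := card_mul_numWeights p K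
  rw [finsum_eq_sum_of_fintype] at h h1 h2
  have key : ∑ Q : {Q : Subgroup (G × K) // IsPGroup p Q},
      Nat.card (Subgroup.normalizer (Q.1 : Set (G × K))) * loc p Q.1 =
      ∑ x : {Q : Subgroup G // IsPGroup p Q} × {Q : Subgroup K // IsPGroup p Q},
        (Nat.card (Subgroup.normalizer (x.1.1 : Set G)) * loc p x.1.1) *
        (Nat.card (Subgroup.normalizer (x.2.1 : Set K)) * loc p x.2.1) := by
    have hpg : ∀ x : {Q : Subgroup G // IsPGroup p Q} × {Q : Subgroup K // IsPGroup p Q},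
        IsPGroup p (x.1.1.prod x.2.1) := by
      intro x
      obtain ⟨n1, hn1⟩ := IsPGroup.iff_card.1 x.1.2
      obtain ⟨n2, hn2⟩ := IsPGroup.iff_card.1 x.2.2
      refine IsPGroup.iff_card.2 ⟨n1 + n2, ?_⟩
      rw [Nat.card_congr (Subgroup.prodEquiv _ _).toEquiv, Nat.card_prod, hn1, hn2, pow_add]
    have hpr : ∀ (A : Subgroup G) (B : Subgroup K), pj (A.prod B) = A.prod B := by
      intro A B
      unfold pj
      congr 1
      · ext a
        constructor
        · rintro ⟨x, hx, rfl⟩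
          exact (Subgroup.mem_prod.1 hx).1
        · intro ha
          exact ⟨(a, 1), Subgroup.mem_prod.2 ⟨ha, B.one_mem⟩, rfl⟩
      · ext b
        constructor
        · rintro ⟨x, hx, rfl⟩
          exact (Subgroup.mem_prod.1 hx).2
        · intro hb
          exact ⟨(1, b), Subgroup.mem_prod.2 ⟨A.one_mem, hb⟩, rfl⟩
    rw [← Finset.sum_subset (Finset.filter_subset
      (fun Q : {Q : Subgroup (G × K) // IsPGroup p Q} => pj Q.1 = Q.1) Finset.univ)]
    · refine Finset.sum_bij' (fun Q _ => (⟨Q.1.map (MonoidHom.fst G K), Q.2.map _⟩,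
          ⟨Q.1.map (MonoidHom.snd G K), Q.2.map _⟩)) (fun x _ => ⟨x.1.1.prod x.2.1, hpg x⟩)
        (fun _ _ => Finset.mem_univ _) (fun x _ => Finset.mem_filter.2 ⟨Finset.mem_univ _,
          hpr _ _⟩) ?_ ?_ ?_
      · intro Q hQ
        exact Subtype.ext (Finset.mem_filter.1 hQ).2
      · intro x _
        have h3 := hpr x.1.1 x.2.1
        unfold pj at h3
        refine Prod.ext (Subtype.ext ?_) (Subtype.ext ?_)
        · change (x.1.1.prod x.2.1).map (MonoidHom.fst G K) = x.1.1
          ext a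
          constructor
          · rintro ⟨y, hy, rfl⟩
            exact (Subgroup.mem_prod.1 hy).1
          · intro ha
            exact ⟨(a, 1), Subgroup.mem_prod.2 ⟨ha, x.2.1.one_mem⟩, rfl⟩
        · change (x.1.1.prod x.2.1).map (MonoidHom.snd G K) = x.2.1
          ext b
          constructor
          · rintro ⟨y, hy, rfl⟩
            exact (Subgroup.mem_prod.1 hy).2
          · intro hb
            exact ⟨(1, b), Subgroup.mem_prod.2 ⟨x.1.1.one_mem, hb⟩, rfl⟩
      · intro Q hQ
        have h3 : Q.1 = (Q.1.map (MonoidHom.fst G K)).prod (Q.1.map (MonoidHom.snd G K)) :=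
          (Finset.mem_filter.1 hQ).2.symm
        conv_lhs => rw [h3]
        rw [card_norm_prod, loc_prod]
        ring
    · intro Q _ hQ
      rw [Finset.mem_filter, not_and] at hQ
      have h3 := hQ (Finset.mem_univ _)
      rw [loc_zero (p := p) (pj_pg Q.2) (lt_of_le_of_ne (le_pj Q.1) (Ne.symm h3))
        (fun g hg => pj_conj hg), mul_zero]
  rw [key, Fintype.sum_prod_type] at h
  simp only [← Finset.mul_sum] at h
  rw [← Finset.sum_mul, ← h1, ← h2, Nat.card_prod] at h
  have h0 : 0 < Nat.card G * Nat.card K := Nat.mul_pos Nat.card_pos Nat.card_pos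
  refine Nat.eq_of_mul_eq_mul_left h0 ?_
  rw [h]
  ring

end prod

end Pool.Agent.U259.AQ
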