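import Pool.Agent.U259.AQ.Cls

/-!
# The number of `p`-regular classes of `G ≀ C_q`, `q ≠ p`
-/

set_option autoImplicit false
set_option linter.unusedSectionVars false

open scoped Classical BigOperators

noncomputable section

namespace Pool.Agent.U259.AQ

open Pool.Agent.Y63.AWC (numDefectZero numWeights numRegularClasses loc numDefectZero_congr
  card_mul_numWeights numWeights_congr card_mul_numRegularClasses numRegularClasses_congr)
open Pool.Agent.N85.WM (Wr Base shiftHom mem_base)
open Pool.Agent.U259.WD (ga tt inl_tt conj_ga Phi Phi_bij mul_left_apply inv_left_apply conj_inl)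
open SemidirectProduct (inl inr)

variable {q : ℕ} [hq : Fact q.Prime] {G : Type} [Group G] [Finite G]

/-- the sum over the coset of the generator -/
theorem sum_one [Fintype G] (F : Wr q G → ℤ) [Fintype (ZMod q)]
    (hF : ∀ (n : ZMod q → G) (g : Wr q G), F (inl n * g * (inl n)⁻¹) = F g) :
    (Nat.card G : ℤ) * ∑ b : ZMod q → G, F (inl b * tt q G) =
      (Nat.card G : ℤ) ^ q * ∑ a : G, F (ga a) := by
  have e3 : (Nat.card G : ℤ) * ∑ b : ZMod q → G, F (inl b * tt q G) =
      ∑ x : (ZMod q → G) × G, F (inl x.1 * tt q G) := by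
    rw [Fintype.sum_prod_type, Finset.mul_sum]
    refine Finset.sum_congr rfl fun b _ => ?_
    change _ = ∑ y : G, F (inl b * tt q G)
    rw [Finset.sum_const, Finset.card_univ, nsmul_eq_mul, Nat.card_eq_fintype_card]
  have e4 : ∑ x : (ZMod q → G) × G, F (inl x.1 * tt q G) =
      ∑ x : (ZMod q → G) × G, F (ga x.2) := by
    rw [← (Equiv.ofBijective _ (Phi_bij (q := q) (G := G))).sum_comp]
    refine Finset.sum_congr rfl fun x _ => ?_
    rw [← hF x.1 (ga x.2), conj_ga]
    rfl
  rw [e3, e4, Fintype.sum_prod_type]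
  change ∑ _x : ZMod q → G, ∑ y : G, F (ga y) = _
  rw [Finset.sum_const, Finset.card_univ, nsmul_eq_mul,
    ← Nat.card_eq_fintype_card, Nat.card_fun, Nat.card_zmod]
  push_cast
  rfl

/-- the sum over the whole group -/
theorem sum_all [Fintype G] [Fintype (ZMod q)] [Fintype (Wr q G)] (F : Wr q G → ℤ)
    (hF : ∀ (t : (ZMod q)ˣ) (g : Wr q G), F (al t g) = F g) :
    ∑ g : Wr q G, F g = ∑ b : ZMod q → G, F (inl b) +
      ((q : ℤ) - 1) * ∑ b : ZMod q → G, F (inl b * tt q G) := by
  have e1 : ∑ g : Wr q G, F g = ∑ s : ZMod q, ∑ b : ZMod q → G,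
      F (⟨b, Multiplicative.ofAdd s⟩ : Wr q G) := by
    rw [← Fintype.sum_prod_type']
    exact Fintype.sum_equiv
      { toFun := fun g : Wr q G => (g.right.toAdd, g.left)
        invFun := fun x => ⟨x.2, Multiplicative.ofAdd x.1⟩
        left_inv := fun g => rfl
        right_inv := fun x => rfl } _ _ fun g => rfl
  have e2 : ∀ s : ZMod q, s ≠ 0 → ∑ b : ZMod q → G, F (⟨b, Multiplicative.ofAdd s⟩ : Wr q G) =
      ∑ b : ZMod q → G, F (inl b * tt q G) := by
    intro s hs
    have hu : IsUnit s := isUnit_iff_ne_zero.2 hs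
    obtain ⟨t, rfl⟩ := hu
    refine Fintype.sum_equiv
      { toFun := fun (b : ZMod q → G) i => b (t * i)
        invFun := fun b i => b ((t⁻¹ : (ZMod q)ˣ) * i)
        left_inv := fun b => by
          funext i
          change b (t * ((t⁻¹ : (ZMod q)ˣ) * i)) = b i
          rw [← mul_assoc, Units.mul_inv, one_mul]
        right_inv := fun b => by
          funext i
          change b ((t⁻¹ : (ZMod q)ˣ) * (t * i)) = b i
          rw [← mul_assoc, Units.inv_mul, one_mul] } _ _ fun b => ?_
    rw [← hF t]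
    congr 1
    refine SemidirectProduct.ext ?_ ?_
    · funext i
      rw [mul_left_apply]
      change b (t * i) = b (t * i) * 1
      rw [mul_one]
    · change Multiplicative.ofAdd (((t⁻¹ : (ZMod q)ˣ) : ZMod q) * (t : ZMod q)) =
        (1 : Multiplicative (ZMod q)) * Multiplicative.ofAdd 1
      rw [Units.inv_mul, one_mul]
  rw [e1, ← Finset.add_sum_erase Finset.univ _ (Finset.mem_univ (0 : ZMod q))]
  congr 1
  · rw [Finset.sum_congr rfl fun s hs => e2 s (Finset.ne_of_mem_erase hs), Finset.sum_const,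
      Finset.card_erase_of_mem (Finset.mem_univ _), Finset.card_univ, ZMod.card, nsmul_eq_mul,
      Nat.cast_sub hq.out.one_le, Nat.cast_one]

variable {p : ℕ} [hp : Fact p.Prime]

/-- the number of the `p`-regular elements of the base group commuting with `g` -/
def FA (p : ℕ) (g : Wr q G) : ℤ :=
  Nat.card {x : Wr q G // x.right = 1 ∧ ¬ p ∣ orderOf x ∧ x * g = g * x}

/-- the number of the elements of the base group commuting with `g` -/
def FB (p : ℕ) (g : Wr q G) : ℤ :=
  if ¬ p ∣ orderOf g then Nat.card {x : Wr q G // x.right = 1 ∧ x * g = g * x} else 0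

theorem FA_iso (φ : Wr q G ≃* Wr q G) (h : ∀ x, (φ x).right = 1 ↔ x.right = 1) (g : Wr q G) :
    FA p (φ g) = FA p g := by
  unfold FA
  congr 1
  refine (Nat.card_congr (φ.toEquiv.subtypeEquiv fun x => ?_)).symm
  change _ ↔ (φ x).right = 1 ∧ ¬ p ∣ orderOf (φ x) ∧ φ x * φ g = φ g * φ x
  rw [h, MulEquiv.orderOf_eq, ← map_mul, ← map_mul, φ.injective.eq_iff]

theorem FB_iso (φ : Wr q G ≃* Wr q G) (h : ∀ x, (φ x).right = 1 ↔ x.right = 1) (g : Wr q G) :
    FB p (φ g) = FB p g := by
  unfold FB
  rw [MulEquiv.orderOf_eq]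
  congr 2
  refine (Nat.card_congr (φ.toEquiv.subtypeEquiv fun x => ?_)).symm
  change _ ↔ (φ x).right = 1 ∧ φ x * φ g = φ g * φ x
  rw [h, ← map_mul, ← map_mul, φ.injective.eq_iff]

theorem conj_right (y x : Wr q G) : (MulAut.conj y x).right = 1 ↔ x.right = 1 := by
  change y.right * x.right * y.right⁻¹ = 1 ↔ _
  rw [mul_comm y.right, mul_assoc, mul_inv_cancel, mul_one]

theorem comm_card (a : G) : Nat.card {x : Wr q G // x.right = 1 ∧ x * ga a = ga a * x} =
    Nat.card {c : G // c * a = a * c} := by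
  refine Nat.card_congr
    { toFun := fun x => ⟨x.1.left 0, ?_⟩
      invFun := fun c => ⟨inl fun _ => c.1, rfl, comm_ga.2 ⟨fun _ => rfl, c.2⟩⟩
      left_inv := fun x => Subtype.ext ?_
      right_inv := fun c => rfl }
  · have h1 : (inl x.1.left : Wr q G) = x.1 := SemidirectProduct.ext rfl x.2.1.symm
    exact (comm_ga.1 (by rw [h1]; exact x.2.2)).2
  · have h1 : (inl x.1.left : Wr q G) = x.1 := SemidirectProduct.ext rfl x.2.1.symm
    have h2 := (comm_ga.1 (by rw [h1]; exact x.2.2)).1
    change (inl fun _ => x.1.left 0 : Wr q G) = x.1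
    rw [← h1]
    congr 1
    funext i
    exact (h2 i).symm

theorem comm_card' (a : G) : Nat.card {x : Wr q G // x.right = 1 ∧ ¬ p ∣ orderOf x ∧
      x * ga a = ga a * x} = Nat.card {c : G // ¬ p ∣ orderOf c ∧ c * a = a * c} := by
  refine Nat.card_congr
    { toFun := fun x => ⟨x.1.left 0, ?_⟩
      invFun := fun c => ⟨inl fun _ => c.1, rfl, by rw [order_const]; exact c.2.1,
        comm_ga.2 ⟨fun _ => rfl, c.2.2⟩⟩
      left_inv := fun x => Subtype.ext ?_
      right_inv := fun c => rfl }
  · have h1 : (inl x.1.left : Wr q G) = x.1 := SemidirectProduct.ext rfl x.2.1.symm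
    have h2 := comm_ga.1 (by rw [h1]; exact x.2.2.2)
    refine ⟨?_, h2.2⟩
    have h3 : (inl fun _ => x.1.left 0 : Wr q G) = x.1 := by
      rw [← h1]
      congr 1
      funext i
      exact (h2.1 i).symm
    rw [← order_const (q := q), h3]
    exact x.2.2.1
  · have h1 : (inl x.1.left : Wr q G) = x.1 := SemidirectProduct.ext rfl x.2.1.symm
    have h2 := (comm_ga.1 (by rw [h1]; exact x.2.2.2)).1
    change (inl fun _ => x.1.left 0 : Wr q G) = x.1
    rw [← h1]
    congr 1
    funext i
    exact (h2 i).symm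

/-- pairs -/
theorem pairs {H : Type} [Group H] [Finite H] [Fintype H] :
    (Nat.card H : ℤ) * numRegularClasses p H =
      ∑ y : H, (Nat.card {x : H // ¬ p ∣ orderOf x ∧ x * y = y * x} : ℤ) := by
  have h := card_mul_numRegularClasses p H
  have e : {q : H × H // ¬ p ∣ orderOf q.1 ∧ q.1 * q.2 = q.2 * q.1} ≃
      (Σ y : H, {x : H // ¬ p ∣ orderOf x ∧ x * y = y * x}) :=
    { toFun := fun q => ⟨q.1.2, ⟨q.1.1, q.2⟩⟩
      invFun := fun s => ⟨(s.2.1, s.1), s.2.2⟩
      left_inv := fun q => rfl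
      right_inv := fun s => rfl }
  rw [Nat.card_congr e, Nat.card_sigma] at h
  exact_mod_cast h

theorem pairs' {H : Type} [Group H] [Finite H] [Fintype H] :
    (Nat.card H : ℤ) * numRegularClasses p H =
      ∑ x : H, if ¬ p ∣ orderOf x then (Nat.card {y : H // y * x = x * y} : ℤ) else 0 := by
  have h := card_mul_numRegularClasses p H
  have e : {q : H × H // ¬ p ∣ orderOf q.1 ∧ q.1 * q.2 = q.2 * q.1} ≃
      (Σ x : H, {y : H // ¬ p ∣ orderOf x ∧ y * x = x * y}) :=
    { toFun := fun q => ⟨q.1.1, ⟨q.1.2, q.2.1, q.2.2.symm⟩⟩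
      invFun := fun s => ⟨(s.1, s.2.1), s.2.2.1, s.2.2.2.symm⟩
      left_inv := fun q => rfl
      right_inv := fun s => rfl }
  rw [Nat.card_congr e, Nat.card_sigma] at h
  have h2 : (Nat.card H : ℤ) * numRegularClasses p H =
      ∑ x : H, (Nat.card {y : H // ¬ p ∣ orderOf x ∧ y * x = x * y} : ℤ) := by exact_mod_cast h
  rw [h2]
  refine Finset.sum_congr rfl fun x _ => ?_
  by_cases hx : ¬ p ∣ orderOf x
  · rw [if_pos hx]
    congr 1
    exact Nat.card_congr (Equiv.subtypeEquivRight fun y => ⟨fun h => h.2, fun h => ⟨hx, h⟩⟩)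
  · rw [if_neg hx]
    have : IsEmpty {y : H // ¬ p ∣ orderOf x ∧ y * x = x * y} := ⟨fun y => hx y.2.1⟩
    rw [Nat.card_eq_zero.2 (Or.inl inferInstance), Nat.cast_zero]

/-- the centraliser of an element outside the base group -/
theorem cent_card {x : Wr q G} (hx : x.right ≠ 1) :
    Nat.card {y : Wr q G // y * x = x * y} =
      q * Nat.card {y : Wr q G // y.right = 1 ∧ y * x = x * y} := by
  have hx' : x.right.toAdd ≠ 0 := fun h => hx (toAdd_eq_zero.1 h)
  have e : {y : Wr q G // y * x = x * y} ≃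
      ZMod q × {y : Wr q G // y.right = 1 ∧ y * x = x * y} := by
    refine
      { toFun := fun y => (y.1.right.toAdd,
          ⟨y.1 * (x ^ (y.1.right.toAdd * x.right.toAdd⁻¹ : ZMod q).val)⁻¹, ?_, ?_⟩)
        invFun := fun z => ⟨z.2.1 * x ^ (z.1 * x.right.toAdd⁻¹ : ZMod q).val, ?_⟩
        left_inv := fun y => ?_
        right_inv := fun z => ?_ }
    · change y.1.right * ((x ^ (y.1.right.toAdd * x.right.toAdd⁻¹ : ZMod q).val)⁻¹).right = 1
      have h1 : ((x ^ (y.1.right.toAdd * x.right.toAdd⁻¹ : ZMod q).val)⁻¹).right =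
          (x.right ^ (y.1.right.toAdd * x.right.toAdd⁻¹ : ZMod q).val)⁻¹ := by
        rw [← pow_right]
        rfl
      rw [h1, mul_inv_eq_one]
      apply Multiplicative.toAdd.injective
      rw [toAdd_pow, nsmul_eq_mul, ZMod.natCast_val, ZMod.cast_id, mul_assoc,
        inv_mul_cancel₀ hx', mul_one]
    · have h1 : Commute y.1 x := y.2
      exact (h1.mul_left ((Commute.refl x).pow_left _).inv_left).eq
    · have h1 : Commute z.2.1 x := z.2.2.2
      exact (h1.mul_left ((Commute.refl x).pow_left _)).eq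
    · exact Subtype.ext (inv_mul_cancel_right _ _)
    · have h1 : (z.2.1 * x ^ (z.1 * x.right.toAdd⁻¹ : ZMod q).val).right.toAdd = z.1 := by
        change (z.2.1.right * (x ^ (z.1 * x.right.toAdd⁻¹ : ZMod q).val).right).toAdd = z.1
        rw [z.2.2.1, one_mul, pow_right, toAdd_pow, nsmul_eq_mul, ZMod.natCast_val, ZMod.cast_id,
          mul_assoc, inv_mul_cancel₀ hx', mul_one]
      refine Prod.ext h1 (Subtype.ext ?_)
      change z.2.1 * x ^ (z.1 * x.right.toAdd⁻¹ : ZMod q).val *
        (x ^ ((z.2.1 * x ^ (z.1 * x.right.toAdd⁻¹ : ZMod q).val).right.toAdd *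
          x.right.toAdd⁻¹ : ZMod q).val)⁻¹ = z.2.1
      rw [h1, mul_inv_cancel_right]
  rw [Nat.card_congr e, Nat.card_prod, Nat.card_zmod]

/-- **the number of `p`-regular classes of `G ≀ C_q`**, `q ≠ p` -/
theorem l_rec (hqp : q ≠ p) : (q : ℤ) * numRegularClasses p (Wr q G) =
    (numRegularClasses p G : ℤ) ^ q + ((q : ℤ) ^ 2 - 1) * numRegularClasses p G := by
  have : NeZero q := ⟨hq.out.ne_zero⟩
  have _f0 : Fintype G := Fintype.ofFinite G
  have _f1 : Fintype (Wr q G) := Fintype.ofFinite _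
  have g0 : (Nat.card G : ℤ) ≠ 0 := by exact_mod_cast (Nat.card_pos (α := G)).ne'
  -- the decomposition
  have h0 : (Nat.card (Wr q G) : ℤ) * numRegularClasses p (Wr q G) =
      ∑ g : Wr q G, FA p g + ∑ g : Wr q G, (if g.right = 1 then 0 else (q : ℤ) * FB p g) := by
    have h1 := card_mul_numRegularClasses p (Wr q G)
    let S := {z : Wr q G × Wr q G // ¬ p ∣ orderOf z.1 ∧ z.1 * z.2 = z.2 * z.1}
    have e1 : S ≃ {z : S // z.1.1.right = 1} ⊕ {z : S // ¬ z.1.1.right = 1} :=
      (Equiv.sumCompl (fun z : S => z.1.1.right = 1)).symm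
    have e2 : Nat.card {z : S // z.1.1.right = 1} = ∑ g : Wr q G,
        Nat.card {x : Wr q G // x.right = 1 ∧ ¬ p ∣ orderOf x ∧ x * g = g * x} := by
      rw [← Nat.card_sigma]
      exact Nat.card_congr
        { toFun := fun z => ⟨z.1.1.2, ⟨z.1.1.1, z.2, z.1.2.1, z.1.2.2⟩⟩
          invFun := fun s => ⟨⟨(s.2.1, s.1), s.2.2.2.1, s.2.2.2.2⟩, s.2.2.1⟩
          left_inv := fun z => rfl
          right_inv := fun s => rfl }
    have e3 : Nat.card {z : S // ¬ z.1.1.right = 1} = ∑ g : Wr q G,
        Nat.card {y : Wr q G // g.right ≠ 1 ∧ ¬ p ∣ orderOf g ∧ y * g = g * y} := by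
      rw [← Nat.card_sigma]
      exact Nat.card_congr
        { toFun := fun z => ⟨z.1.1.1, ⟨z.1.1.2, z.2, z.1.2.1, z.1.2.2.symm⟩⟩
          invFun := fun s => ⟨⟨(s.1, s.2.1), s.2.2.2.1, s.2.2.2.2.symm⟩, s.2.2.1⟩
          left_inv := fun z => rfl
          right_inv := fun s => rfl }
    have e4 : ∀ g : Wr q G,
        (Nat.card {y : Wr q G // g.right ≠ 1 ∧ ¬ p ∣ orderOf g ∧ y * g = g * y} : ℤ) =
        if g.right = 1 then 0 else (q : ℤ) * FB p g := by
      intro g
      by_cases hg : g.right = 1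
      · rw [if_pos hg]
        have : IsEmpty {y : Wr q G // g.right ≠ 1 ∧ ¬ p ∣ orderOf g ∧ y * g = g * y} :=
          ⟨fun y => y.2.1 hg⟩
        rw [Nat.card_eq_zero.2 (Or.inl inferInstance), Nat.cast_zero]
      · rw [if_neg hg]
        unfold FB
        by_cases hx : ¬ p ∣ orderOf g
        · rw [if_pos hx]
          have h5 : Nat.card {y : Wr q G // g.right ≠ 1 ∧ ¬ p ∣ orderOf g ∧ y * g = g * y} =
              Nat.card {y : Wr q G // y * g = g * y} :=
            Nat.card_congr (Equiv.subtypeEquivRight fun y =>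
              ⟨fun h => h.2.2, fun h => ⟨hg, hx, h⟩⟩)
          rw [h5, cent_card hg]
          push_cast
          ring
        · rw [if_neg hx, mul_zero]
          have : IsEmpty {y : Wr q G // g.right ≠ 1 ∧ ¬ p ∣ orderOf g ∧ y * g = g * y} :=
            ⟨fun y => hx y.2.2.1⟩
          rw [Nat.card_eq_zero.2 (Or.inl inferInstance), Nat.cast_zero]
    have h2 : Nat.card S = _ := (Nat.card_congr e1).trans Nat.card_sum
    rw [e2, e3] at h2
    have h3 : (Nat.card (Wr q G) : ℤ) * numRegularClasses p (Wr q G) = (Nat.card S : ℤ) := by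
      exact_mod_cast h1
    rw [h3, h2]
    push_cast
    rw [Finset.sum_congr rfl fun g _ => e4 g]
    rfl
  -- the base group
  have hb : ∑ b : ZMod q → G, FA p (inl b : Wr q G) =
      (Nat.card G : ℤ) ^ q * (numRegularClasses p G : ℤ) ^ q := by
    have h1 := pairs (p := p) (H := ZMod q → G)
    rw [l_pow, Nat.card_fun, Nat.card_zmod] at h1
    push_cast at h1
    rw [h1]
    refine Finset.sum_congr rfl fun b _ => ?_
    unfold FA
    congr 1
    refine Nat.card_congr
      { toFun := fun x => ⟨x.1.left, ?_, ?_⟩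
        invFun := fun c => ⟨inl c.1, rfl, ?_, ?_⟩
        left_inv := fun x => Subtype.ext (SemidirectProduct.ext rfl x.2.1.symm)
        right_inv := fun c => rfl }
    · have h2 : (inl x.1.left : Wr q G) = x.1 := SemidirectProduct.ext rfl x.2.1.symm
      rw [← orderOf_injective (inl : (ZMod q → G) →* Wr q G) SemidirectProduct.inl_injective, h2]
      exact x.2.2.1
    · have h2 : (inl x.1.left : Wr q G) = x.1 := SemidirectProduct.ext rfl x.2.1.symm
      have h3 := x.2.2.2
      rw [← h2, ← map_mul, ← map_mul] at h3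
      exact SemidirectProduct.inl_injective h3
    · rw [orderOf_injective (inl : (ZMod q → G) →* Wr q G) SemidirectProduct.inl_injective]
      exact c.2.1
    · rw [← map_mul, ← map_mul, c.2.2]
  have hA : ∑ b : ZMod q → G, FA p (inl b * tt q G : Wr q G) =
      (Nat.card G : ℤ) ^ q * numRegularClasses p G := by
    have h1 := sum_one (q := q) (G := G) (FA p) (fun n g => FA_iso (MulAut.conj (inl n))
      (conj_right _) g)
    have h2 : ∑ a : G, FA p (ga a : Wr q G) = (Nat.card G : ℤ) * numRegularClasses p G := by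
      rw [pairs (p := p) (H := G)]
      refine Finset.sum_congr rfl fun a _ => ?_
      unfold FA
      rw [comm_card']
    rw [h2] at h1
    refine mul_left_cancel₀ g0 ?_
    rw [h1]
    ring
  have hB : ∑ b : ZMod q → G, FB p (inl b * tt q G : Wr q G) =
      (Nat.card G : ℤ) ^ q * numRegularClasses p G := by
    have h1 := sum_one (q := q) (G := G) (FB p) (fun n g => FB_iso (MulAut.conj (inl n))
      (conj_right _) g)
    have h2 : ∑ a : G, FB p (ga a : Wr q G) = (Nat.card G : ℤ) * numRegularClasses p G := by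
      rw [pairs' (p := p) (H := G)]
      refine Finset.sum_congr rfl fun a _ => ?_
      unfold FB
      simp only [comm_card, order_ga hqp a]
    rw [h2] at h1
    refine mul_left_cancel₀ g0 ?_
    rw [h1]
    ring
  rw [sum_all (q := q) (G := G) (FA p) (fun t g => FA_iso (al t) (al_right t) g),
    sum_all (q := q) (G := G) (fun g => if g.right = 1 then 0 else (q : ℤ) * FB p g)
      (fun t g => by
        have h1 : FB p (al t g) = FB p g := FB_iso (al t) (al_right t) g
        rw [h1]
        by_cases h2 : g.right = 1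
        · rw [if_pos h2, if_pos ((al_right t g).2 h2)]
        · rw [if_neg h2, if_neg fun h3 => h2 ((al_right t g).1 h3)]), hb, hA] at h0
  have h3 : ∑ b : ZMod q → G, (if (inl b : Wr q G).right = 1 then 0 else
      (q : ℤ) * FB p (inl b : Wr q G)) = 0 :=
    Finset.sum_eq_zero fun b _ => if_pos rfl
  have h4 : ∑ b : ZMod q → G, (if (inl b * tt q G : Wr q G).right = 1 then 0 else
      (q : ℤ) * FB p (inl b * tt q G : Wr q G)) =
      (q : ℤ) * ((Nat.card G : ℤ) ^ q * numRegularClasses p G) := by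
    rw [← hB, Finset.mul_sum]
    refine Finset.sum_congr rfl fun b _ => if_neg ?_
    change ¬ (1 : Multiplicative (ZMod q)) * Multiplicative.ofAdd 1 = 1
    rw [one_mul, ofAdd_eq_one]
    have : Nontrivial (ZMod q) := inferInstance
    exact one_ne_zero
  rw [h3, h4, Pool.Agent.N85.WM.card_wr] at h0
  push_cast at h0
  refine mul_left_cancel₀ (pow_ne_zero q g0) ?_
  linear_combination h0

end Pool.Agent.U259.AQ
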