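import Pool.Agent.U259.AQ.Loc

/-!
# Direct powers and `p'`-groups
-/

set_option autoImplicit false
set_option linter.unusedSectionVars false

open scoped Classical BigOperators

noncomputable section

namespace Pool.Agent.U259.AQ

open Pool.Agent.Y63.AWC (numDefectZero numWeights numRegularClasses loc numDefectZero_congr
  card_mul_numWeights numWeights_congr card_mul_numRegularClasses numRegularClasses_congr)
open Pool.Agent.U259.KR (dz_prod)
open Pool.Agent.U259.KQ (cyc dz_coprime altK_coprime)

/-- powers -/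
theorem pow_of_mul (f : ∀ (G : Type) [Group G], ℕ)
    (hi : ∀ (G H : Type) [Group G] [Group H] [Finite G] [Finite H], G ≃* H → f G = f H)
    (hm : ∀ (G H : Type) [Group G] [Group H] [Finite G] [Finite H], f (G × H) = f G * f H)
    (h1 : ∀ (G : Type) [Group G] [Finite G] [Unique G], f G = 1)
    (H : Type) [Group H] [Finite H] (ι : Type) [hι : Finite ι] :
    f (ι → H) = f H ^ Nat.card ι := by
  refine Finite.induction_empty_option
    (P := fun ι : Type => Finite ι → f (ι → H) = f H ^ Nat.card ι) ?_ ?_ ?_ ι hι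
  · intro α β e ih hβ
    have hα : Finite α := Finite.of_equiv β e.symm
    rw [← Nat.card_congr e, ← ih hα]
    exact hi (β → H) (α → H)
      { toFun := fun x i => x (e i)
        invFun := fun x i => x (e.symm i)
        left_inv := fun x => by funext i; simp
        right_inv := fun x => by funext i; simp
        map_mul' := fun _ _ => rfl }
  · intro _
    rw [Nat.card_eq_zero.2 (Or.inl inferInstance), pow_zero]
    exact h1 _
  · intro α _ ih _
    rw [Nat.card_eq_fintype_card, Fintype.card_option, pow_succ, mul_comm,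
      ← Nat.card_eq_fintype_card, ← ih inferInstance, ← hm]
    exact hi _ _
      { toFun := fun x => (x none, fun i => x (some i))
        invFun := fun y i => i.elim y.1 y.2
        left_inv := fun x => by
          funext i
          cases i <;> rfl
        right_inv := fun y => rfl
        map_mul' := fun _ _ => rfl }

variable {p : ℕ} [hp : Fact p.Prime]

theorem dz_unique (G : Type) [Group G] [Finite G] [Unique G] : numDefectZero p G = 1 := by
  have h1 := (cyc (p := p) 1 (fun h => hp.out.ne_one (Nat.dvd_one.1 h))).2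
  have h2 : numDefectZero p G = numDefectZero p (Multiplicative (ZMod 1)) :=
    numDefectZero_congr
      { toFun := fun _ => 1
        invFun := fun _ => 1
        left_inv := fun x => Subsingleton.elim _ _
        right_inv := fun x => Subsingleton.elim _ _
        map_mul' := fun _ _ => rfl }
  rw [h2]
  exact_mod_cast h1

theorem dz_pow (H : Type) [Group H] [Finite H] (ι : Type) [Finite ι] :
    numDefectZero p (ι → H) = numDefectZero p H ^ Nat.card ι :=
  pow_of_mul (fun G _ => numDefectZero p G) (fun _ _ _ _ _ _ e => numDefectZero_congr e)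
    (fun G K _ _ _ _ => by
      have := Fintype.ofFinite G
      have := Fintype.ofFinite K
      exact dz_prod G K) (fun G _ _ _ => dz_unique G) H ι

/-- weights of `p'`-groups -/
theorem w_coprime (K : Type) [Group K] [Finite K] (h : ¬ p ∣ Nat.card K) :
    numWeights p K = numDefectZero p K := by
  have h1 := card_mul_numWeights p K
  have hb : ∀ Q : {Q : Subgroup K // IsPGroup p Q}, Q.1 = ⊥ := by
    intro Q
    obtain ⟨n, hn⟩ := IsPGroup.iff_card.mp Q.2
    rcases Nat.eq_zero_or_pos n with h2 | h2
    · rw [h2, pow_zero] at hn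
      exact Subgroup.card_eq_one.mp hn
    · exfalso
      apply h
      refine dvd_trans ?_ (Subgroup.card_subgroup_dvd_card Q.1)
      rw [hn]
      exact dvd_pow_self p h2.ne'
  let Q0 : {Q : Subgroup K // IsPGroup p Q} := ⟨⊥, IsPGroup.of_bot⟩
  have _u : Unique {Q : Subgroup K // IsPGroup p Q} :=
    ⟨⟨Q0⟩, fun Q => Subtype.ext (hb Q)⟩
  rw [finsum_unique] at h1
  have h2 : (default : {Q : Subgroup K // IsPGroup p Q}).1 = ⊥ := hb _
  rw [h2, Pool.Agent.Y63.NV.normalizer_bot, Subgroup.card_top] at h1
  have h3 : loc p (⊥ : Subgroup K) = numDefectZero p K := by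
    refine loc_of_hom (⊥ : Subgroup K)
      ((Subgroup.normalizer ((⊥ : Subgroup K) : Set K)).subtype) ?_ ?_
    · intro x
      exact ⟨⟨x, by rw [Pool.Agent.Y63.NV.normalizer_bot]; trivial⟩, rfl⟩
    · intro x
      rw [Subgroup.mem_bot]
      rfl
  rw [h3] at h1
  exact Nat.eq_of_mul_eq_mul_left Nat.card_pos h1

theorem w_unique (G : Type) [Group G] [Finite G] [Unique G] : numWeights p G = 1 := by
  rw [w_coprime, dz_unique]
  rw [Nat.card_unique]
  exact fun h => hp.out.ne_one (Nat.dvd_one.1 h)

theorem w_pow (H : Type) [Group H] [Finite H] (ι : Type) [Finite ι] :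
    numWeights p (ι → H) = numWeights p H ^ Nat.card ι :=
  pow_of_mul (fun G _ => numWeights p G) (fun _ _ _ _ _ _ e => numWeights_congr e)
    (fun _ _ _ _ _ _ => w_prod) (fun G _ _ _ => w_unique G) H ι

/-- classes of direct products -/
theorem l_prod (G K : Type) [Group G] [Group K] [Finite G] [Finite K] :
    numRegularClasses p (G × K) = numRegularClasses p G * numRegularClasses p K := by
  have h := card_mul_numRegularClasses p (G × K)
  have h1 := card_mul_numRegularClasses p G
  have h2 := card_mul_numRegularClasses p K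
  have h0 : 0 < Nat.card G * Nat.card K := Nat.mul_pos Nat.card_pos Nat.card_pos
  refine Nat.eq_of_mul_eq_mul_left h0 ?_
  rw [← Nat.card_prod, h, Nat.card_prod]
  have h3 : Nat.card {q : (G × K) × (G × K) // ¬ p ∣ orderOf q.1 ∧ q.1 * q.2 = q.2 * q.1} =
      Nat.card {q : G × G // ¬ p ∣ orderOf q.1 ∧ q.1 * q.2 = q.2 * q.1} *
      Nat.card {q : K × K // ¬ p ∣ orderOf q.1 ∧ q.1 * q.2 = q.2 * q.1} := by
    rw [← Nat.card_prod]
    have hord : ∀ x : G × K, ¬ p ∣ orderOf x ↔ ¬ p ∣ orderOf x.1 ∧ ¬ p ∣ orderOf x.2 := by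
      intro x
      rw [Prod.orderOf, ← not_or, not_iff_not]
      rw [Nat.Prime.dvd_lcm hp.out]
    exact Nat.card_congr
      { toFun := fun q => (⟨(q.1.1.1, q.1.2.1), ((hord _).1 q.2.1).1,
            congrArg Prod.fst q.2.2⟩, ⟨(q.1.1.2, q.1.2.2), ((hord _).1 q.2.1).2,
            congrArg Prod.snd q.2.2⟩)
        invFun := fun r => ⟨((r.1.1.1, r.2.1.1), (r.1.1.2, r.2.1.2)),
          (hord _).2 ⟨r.1.2.1, r.2.2.1⟩, Prod.ext r.1.2.2 r.2.2.2⟩
        left_inv := fun q => rfl
        right_inv := fun r => rfl }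
  rw [h3, ← h1, ← h2]
  ring

theorem l_unique (G : Type) [Group G] [Finite G] [Unique G] : numRegularClasses p G = 1 := by
  have h := card_mul_numRegularClasses p G
  rw [Nat.card_unique, one_mul] at h
  rw [h, Nat.card_eq_one_iff_unique]
  refine ⟨⟨fun a b => Subtype.ext (Subsingleton.elim _ _)⟩, ⟨⟨(1, 1), ?_, rfl⟩⟩⟩
  rw [orderOf_one]
  exact fun h => hp.out.ne_one (Nat.dvd_one.1 h)

theorem l_pow (H : Type) [Group H] [Finite H] (ι : Type) [Finite ι] :
    numRegularClasses p (ι → H) = numRegularClasses p H ^ Nat.card ι :=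
  pow_of_mul (fun G _ => numRegularClasses p G)
    (fun _ _ _ _ _ _ e => numRegularClasses_congr e)
    (fun G K _ _ _ _ => l_prod G K) (fun G _ _ _ => l_unique G) H ι

/-- classes of `p'`-groups -/
theorem l_coprime (K : Type) [Group K] [Finite K] (h : ¬ p ∣ Nat.card K) :
    numRegularClasses p K = Nat.card (ConjClasses K) := by
  unfold numRegularClasses
  refine Nat.card_congr (Equiv.subtypeUnivEquiv fun c => ?_)
  obtain ⟨x, rfl⟩ := ConjClasses.exists_rep c
  exact ⟨x, rfl, fun h1 => h (h1.trans (orderOf_dvd_natCard x))⟩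

theorem lw_cyc (n : ℕ) [NeZero n] (h : ¬ p ∣ n) :
    numRegularClasses p (Multiplicative (ZMod n)) = n ∧ numWeights p (Multiplicative (ZMod n)) = n := by
  have h0 : Nat.card (Multiplicative (ZMod n)) = n := by
    rw [Nat.card_congr Multiplicative.toAdd, Nat.card_zmod]
  have h3 : Nat.card (ConjClasses (Multiplicative (ZMod n))) = n := by
    rw [← Nat.card_congr (ConjClasses.mkEquiv (α := Multiplicative (ZMod n))), h0]
  rw [l_coprime _ (by rwa [h0]), w_coprime _ (by rwa [h0]), h3]
  exact ⟨rfl, by exact_mod_cast (cyc (p := p) n h).2⟩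

end Pool.Agent.U259.AQ
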