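import Pool.Agent.U259.AQ.Wrec

/-!
# The number of weights of `G ≀ C_q`, `q ≠ p`: the sum
-/

set_option autoImplicit false
set_option linter.unusedSectionVars false

open scoped Classical BigOperators

noncomputable section

namespace Pool.Agent.U259.AQ

open Pool.Agent.Y63.AWC (numDefectZero numWeights loc card_mul_numWeights)
open Pool.Agent.Y63.KR (conjSub conj_mem_conjSub mem_conjSub conjSub_eq_iff)
open Pool.Agent.N85.WM (Wr Base shiftHom mem_base card_wr)
open Pool.Agent.U259.WD (ga tt closed_ga dg' conj_dg cl pc box pc_dg box_le)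
open Pool.Agent.N19.RB (isPGroup_piS)
open SemidirectProduct (inl inr)

variable {q : ℕ} [hq : Fact q.Prime] {G : Type} [Group G] [Finite G] {p : ℕ} [hp : Fact p.Prime]

theorem cl_dgs (R : Subgroup G) : cl (im (dgs q R)) = im (dgs q R) := by
  rw [im_dgs]
  unfold cl dg'
  congr 1
  funext i
  exact pc_dg R i

theorem ga_mem_nm {a : G} {R : Subgroup G} :
    (ga a : Wr q G) ∈ nm (dgs q R) ↔ a ∈ Subgroup.normalizer (R : Set G) := by
  rw [mem_nm, im_dgs, conj_dg, ← conjSub_eq_iff]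
  constructor
  · intro h
    have h1 := h 0
    rw [ga_left, if_pos rfl] at h1
    exact h1
  · intro h i
    rw [ga_left]
    split_ifs
    · exact h
    · exact Pool.Agent.Y63.KR.conjSub_one R

theorem closed_eq {a : G} {Q : Subgroup (ZMod q → G)} (h : cl (im Q) = im Q)
    (ha : (ga a : Wr q G) ∈ nm Q) : dgs q (pc (im Q) 0) = Q := by
  apply im_inj
  rw [im_dgs]
  exact (closed_ga h (mem_nm.1 ha)).symm

theorem UU_ga (hqp : q ≠ p) (a : G) [Fintype {Q : Subgroup (ZMod q → G) // IsPGroup p Q}]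
    [Fintype {R : Subgroup G // IsPGroup p R}] :
    UU p (ga a : Wr q G) = ∑ R : {R : Subgroup G // IsPGroup p R},
      if a ∈ Subgroup.normalizer (R.1 : Set G) then ((q : ℤ) ^ 2 - 1) * loc p R.1 else 0 := by
  have : NeZero q := ⟨hq.out.ne_zero⟩
  have _f : Fintype G := Fintype.ofFinite G
  unfold UU
  have e1 : ∀ Q : {Q : Subgroup (ZMod q → G) // IsPGroup p Q},
      (if (ga a : Wr q G) ∈ nm Q.1 then uu p Q.1 else 0) =
      if (ga a : Wr q G) ∈ nm Q.1 ∧ cl (im Q.1) = im Q.1 then uu p Q.1 else 0 := by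
    intro Q
    by_cases h1 : (ga a : Wr q G) ∈ nm Q.1
    · by_cases h2 : cl (im Q.1) = im Q.1
      · rw [if_pos h1, if_pos ⟨h1, h2⟩]
      · rw [if_pos h1, if_neg fun h => h2 h.2, uu_zero Q.2 h2]
    · rw [if_neg h1, if_neg fun h => h1 h.1]
  rw [Finset.sum_congr rfl fun Q _ => e1 Q, ← Finset.sum_filter, ← Finset.sum_filter]
  refine Finset.sum_bij' (fun Q _ => ⟨pc (im Q.1) 0, ?_⟩) (fun R _ => ⟨dgs q R.1, ?_⟩)
    ?_ ?_ ?_ ?_ ?_
  · exact IsPGroup.map ((Q.2.map (inl : (ZMod q → G) →* Wr q G)).comap_of_injective _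
      SemidirectProduct.inl_injective) _
  · exact isPGroup_piS (K := fun _ : ZMod q => G) fun _ => R.2
  · intro Q hQ
    rw [Finset.mem_filter] at hQ ⊢
    obtain ⟨-, h1, h2⟩ := hQ
    refine ⟨Finset.mem_univ _, ?_⟩
    rw [← ga_mem_nm (q := q), closed_eq h2 h1]
    exact h1
  · intro R hR
    rw [Finset.mem_filter] at hR ⊢
    exact ⟨Finset.mem_univ _, ga_mem_nm.2 hR.2, cl_dgs R.1⟩
  · intro Q hQ
    rw [Finset.mem_filter] at hQ
    exact Subtype.ext (closed_eq hQ.2.2 hQ.2.1)
  · intro R _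
    refine Subtype.ext ?_
    change pc (im (dgs q R.1)) 0 = R.1
    rw [im_dgs]
    exact pc_dg R.1 0
  · intro Q hQ
    rw [Finset.mem_filter] at hQ
    rw [← uu_dgs hqp, closed_eq hQ.2.2 hQ.2.1]

/-- the `p`-subgroups of `G ≀ C_q` are contained in the base group -/
theorem le_base (hqp : q ≠ p) {P : Subgroup (Wr q G)} (hP : IsPGroup p P) : P ≤ Base q G := by
  intro x hx
  rw [mem_base]
  obtain ⟨k, hk⟩ := hP ⟨x, hx⟩
  have h1 : x ^ p ^ k = 1 := congrArg Subtype.val hk
  have h2 : x.right ^ p ^ k = 1 := by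
    rw [← pow_right, h1]
    rfl
  have h3 : x.right ^ q = 1 := by
    apply Multiplicative.toAdd.injective
    rw [toAdd_pow, nsmul_eq_mul, CharP.cast_eq_zero, zero_mul, toAdd_one]
  have h4 : orderOf x.right ∣ p ^ k := orderOf_dvd_of_pow_eq_one h2
  have h5 : orderOf x.right ∣ q := orderOf_dvd_of_pow_eq_one h3
  have h6 : Nat.Coprime (p ^ k) q :=
    Nat.Coprime.pow_left _ ((Nat.coprime_primes hp.out hq.out).2 (Ne.symm hqp))
  exact orderOf_eq_one_iff.1 (Nat.eq_one_of_dvd_coprimes h6 h4 h5)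

/-- **the number of weights of `G ≀ C_q`**, `q ≠ p` -/
theorem w_rec (hqp : q ≠ p) : (q : ℤ) * numWeights p (Wr q G) =
    (numWeights p G : ℤ) ^ q + ((q : ℤ) ^ 2 - 1) * numWeights p G := by
  have : NeZero q := ⟨hq.out.ne_zero⟩
  have _f0 : Fintype G := Fintype.ofFinite G
  have _f1 : Fintype {Q : Subgroup (Wr q G) // IsPGroup p Q} := Fintype.ofFinite _
  have _f2 : Fintype {Q : Subgroup (ZMod q → G) // IsPGroup p Q} := Fintype.ofFinite _
  have _f3 : Fintype {Q : Subgroup G // IsPGroup p Q} := Fintype.ofFinite _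
  have g0 : (Nat.card G : ℤ) ≠ 0 := by exact_mod_cast (Nat.card_pos (α := G)).ne'
  have h := card_mul_numWeights p (Wr q G)
  have h1 := card_mul_numWeights p (ZMod q → G)
  have h2 := card_mul_numWeights p G
  rw [finsum_eq_sum_of_fintype] at h h1 h2
  have e1 : ∑ Q : {Q : Subgroup (Wr q G) // IsPGroup p Q},
      Nat.card (Subgroup.normalizer (Q.1 : Set (Wr q G))) * loc p Q.1 =
      ∑ Q : {Q : Subgroup (ZMod q → G) // IsPGroup p Q},
        Nat.card (nm Q.1) * loc p (im Q.1) := by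
    symm
    refine Fintype.sum_bijective (fun Q : {Q : Subgroup (ZMod q → G) // IsPGroup p Q} =>
      (⟨im Q.1, Q.2.map _⟩ : {Q : Subgroup (Wr q G) // IsPGroup p Q})) ⟨?_, ?_⟩ _ _
      fun Q => rfl
    · intro Q Q' h3
      exact Subtype.ext (im_inj (congrArg Subtype.val h3))
    · intro P
      refine ⟨⟨P.1.comap (inl : (ZMod q → G) →* Wr q G),
        P.2.comap_of_injective _ SemidirectProduct.inl_injective⟩, Subtype.ext ?_⟩
      exact im_comap (le_base hqp P.2)
  rw [e1] at h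
  have e2 : (Nat.card (Wr q G) : ℤ) * numWeights p (Wr q G) -
      (Nat.card (ZMod q → G) : ℤ) * numWeights p (ZMod q → G) =
      ∑ b : ZMod q → G, UU p (inl b * tt q G : Wr q G) := by
    have h3 : (Nat.card (Wr q G) : ℤ) * numWeights p (Wr q G) =
        ∑ Q : {Q : Subgroup (ZMod q → G) // IsPGroup p Q},
          (Nat.card (nm Q.1) : ℤ) * loc p (im Q.1) := by exact_mod_cast h
    have h4 : (Nat.card (ZMod q → G) : ℤ) * numWeights p (ZMod q → G) =
        ∑ Q : {Q : Subgroup (ZMod q → G) // IsPGroup p Q},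
          (Nat.card (Subgroup.normalizer (Q.1 : Set (ZMod q → G))) : ℤ) * loc p Q.1 := by
      exact_mod_cast h1
    rw [h3, h4, ← Finset.sum_sub_distrib]
    unfold UU
    rw [Finset.sum_comm]
    refine Finset.sum_congr rfl fun Q _ => ?_
    rw [local_id, ← Finset.sum_filter, Finset.sum_const, nsmul_eq_mul, ← Fintype.card_subtype,
      ← Nat.card_eq_fintype_card]
  have e3 := sum_one (q := q) (G := G) (UU p) (fun n g => UU_conj n g)
  have e4 : ∑ a : G, UU p (ga a : Wr q G) =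
      ((q : ℤ) ^ 2 - 1) * ((Nat.card G : ℤ) * numWeights p G) := by
    have h3 : (Nat.card G : ℤ) * numWeights p G =
        ∑ R : {R : Subgroup G // IsPGroup p R},
          (Nat.card (Subgroup.normalizer (R.1 : Set G)) : ℤ) * loc p R.1 := by
      exact_mod_cast h2
    rw [h3, Finset.mul_sum, Finset.sum_congr rfl fun a _ => UU_ga hqp a, Finset.sum_comm]
    refine Finset.sum_congr rfl fun R _ => ?_
    rw [← Finset.sum_filter, Finset.sum_const, nsmul_eq_mul, ← Fintype.card_subtype,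
      ← Nat.card_eq_fintype_card]
    change (Nat.card (Subgroup.normalizer (R.1 : Set G)) : ℤ) * _ = _
    ring
  rw [← e2, e4, w_pow, Nat.card_fun, Nat.card_zmod, card_wr] at e3
  push_cast at e3
  refine mul_left_cancel₀ (pow_ne_zero q g0) (mul_left_cancel₀ g0 ?_)
  linear_combination e3

end Pool.Agent.U259.AQ
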