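import Pool.Agent.U259.AQ.Lrec

/-!
# The number of weights of `G ≀ C_q`, `q ≠ p`
-/

set_option autoImplicit false
set_option linter.unusedSectionVars false

open scoped Classical BigOperators

noncomputable section

namespace Pool.Agent.U259.AQ

open Pool.Agent.Y63.AWC (numDefectZero numWeights numRegularClasses loc numDefectZero_congr
  card_mul_numWeights numWeights_congr loc_map)
open Pool.Agent.Y63.KR (conjSub conj_mem_conjSub mem_conjSub conjSub_eq_iff)
open Pool.Agent.N85.WM (Wr Base shiftHom mem_base)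
open Pool.Agent.U259.WD (ga tt inl_tt conj_ga Phi Phi_bij mul_left_apply inv_left_apply conj_inl
  box pc cl le_cl cl_pg conj_cl closed_ga dg' conj_dg inl_mem_box box_le mem_pc pc_dg mem_pi' pc_box)
open Pool.Agent.U259.KQ (dz_rec)
open SemidirectProduct (inl inr)

variable {q : ℕ} [hq : Fact q.Prime] {G : Type} [Group G] [Finite G]

/-- the image in the wreath product -/
def im (Q : Subgroup (ZMod q → G)) : Subgroup (Wr q G) := Q.map (inl : (ZMod q → G) →* Wr q G)

theorem inl_mem_im {Q : Subgroup (ZMod q → G)} {x : ZMod q → G} :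
    (inl x : Wr q G) ∈ im Q ↔ x ∈ Q := by
  unfold im
  rw [Subgroup.mem_map]
  constructor
  · rintro ⟨y, hy, h⟩
    rwa [← SemidirectProduct.inl_injective h]
  · intro h
    exact ⟨x, h, rfl⟩

theorem im_le (Q : Subgroup (ZMod q → G)) : im Q ≤ Base q G := by
  rintro _ ⟨x, -, rfl⟩
  exact ⟨x, rfl⟩

theorem im_inj {Q Q' : Subgroup (ZMod q → G)} (h : im Q = im Q') : Q = Q' := by
  ext x
  rw [← inl_mem_im, h, inl_mem_im]

theorem im_comap {P : Subgroup (Wr q G)} (h : P ≤ Base q G) :
    im (P.comap (inl : (ZMod q → G) →* Wr q G)) = P := by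
  ext x
  constructor
  · rintro ⟨y, hy, rfl⟩
    exact hy
  · intro hx
    obtain ⟨y, rfl⟩ := h hx
    exact inl_mem_im.2 hx

/-- the normaliser in the wreath product -/
abbrev nm (Q : Subgroup (ZMod q → G)) : Subgroup (Wr q G) :=
  Subgroup.normalizer ((im Q : Subgroup (Wr q G)) : Set (Wr q G))

theorem inl_mem_nm {Q : Subgroup (ZMod q → G)} {x : ZMod q → G} :
    (inl x : Wr q G) ∈ nm Q ↔ x ∈ Subgroup.normalizer (Q : Set (ZMod q → G)) := by
  rw [Subgroup.mem_normalizer_iff, Subgroup.mem_normalizer_iff]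
  constructor
  · intro h y
    have h1 := h (inl y)
    rw [inl_mem_im, ← map_inv, ← map_mul, ← map_mul, inl_mem_im] at h1
    exact h1
  · intro h z
    constructor
    · intro hz
      obtain ⟨y, rfl⟩ := im_le Q hz
      rw [← map_inv, ← map_mul, ← map_mul]
      exact inl_mem_im.2 ((h y).1 (inl_mem_im.1 hz))
    · intro hz
      obtain ⟨y, hy⟩ := im_le Q hz
      have hy' : (inl y : Wr q G) = inl x * z * (inl x)⁻¹ := hy
      have h1 : z = inl (x⁻¹ * y * x) := by
        rw [map_mul, map_mul, map_inv, hy']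
        group
      rw [h1]
      refine inl_mem_im.2 ((h _).2 ?_)
      have h2 : x * (x⁻¹ * y * x) * x⁻¹ = y := by group
      rw [h2]
      rw [← hy'] at hz
      exact inl_mem_im.1 hz

section large

variable {M : Subgroup (Wr q G)}

/-- subgroups which are not contained in the base group contain an element over the generator -/
theorem exists_gen {g : Wr q G} (hg : g ∈ M) (hr : g.right ≠ 1) :
    ∃ h ∈ M, h.right = Multiplicative.ofAdd 1 := by
  have hx' : g.right.toAdd ≠ 0 := fun h => hr (toAdd_eq_zero.1 h)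
  have : NeZero q := ⟨hq.out.ne_zero⟩
  refine ⟨g ^ (g.right.toAdd⁻¹ : ZMod q).val, M.pow_mem hg _, ?_⟩
  rw [pow_right]
  apply Multiplicative.toAdd.injective
  rw [toAdd_pow, nsmul_eq_mul, ZMod.natCast_val, ZMod.cast_id, inv_mul_cancel₀ hx', toAdd_ofAdd]

theorem card_large {g : Wr q G} (hg : g ∈ M) (hr : g.right = Multiplicative.ofAdd 1) :
    Nat.card M = q * Nat.card {x : ZMod q → G // (inl x : Wr q G) ∈ M} := by
  have : NeZero q := ⟨hq.out.ne_zero⟩
  have e : M ≃ ZMod q × {x : ZMod q → G // (inl x : Wr q G) ∈ M} := by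
    have h1 : ∀ y : Wr q G, (y * (g ^ (y.right.toAdd).val)⁻¹).right = 1 := by
      intro y
      change y.right * ((g ^ (y.right.toAdd).val)⁻¹).right = 1
      have h2 : ((g ^ (y.right.toAdd).val)⁻¹).right = (g.right ^ (y.right.toAdd).val)⁻¹ := by
        rw [← pow_right]
        rfl
      rw [h2, hr, mul_inv_eq_one]
      apply Multiplicative.toAdd.injective
      rw [toAdd_pow, nsmul_eq_mul, ZMod.natCast_val, ZMod.cast_id, toAdd_ofAdd, mul_one]
    have h3 : ∀ y : Wr q G, (inl (y * (g ^ (y.right.toAdd).val)⁻¹).left : Wr q G) =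
        y * (g ^ (y.right.toAdd).val)⁻¹ := fun y => SemidirectProduct.ext rfl (h1 y).symm
    refine
      { toFun := fun y => (y.1.right.toAdd, ⟨(y.1 * (g ^ (y.1.right.toAdd).val)⁻¹).left, ?_⟩)
        invFun := fun z => ⟨inl z.2.1 * g ^ z.1.val, M.mul_mem z.2.2 (M.pow_mem hg _)⟩
        left_inv := fun y => Subtype.ext ?_
        right_inv := fun z => ?_ }
    · rw [h3]
      exact M.mul_mem y.2 (M.inv_mem (M.pow_mem hg _))
    · change inl (y.1 * (g ^ (y.1.right.toAdd).val)⁻¹).left * g ^ (y.1.right.toAdd).val = y.1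
      rw [h3, inv_mul_cancel_right]
    · have h4 : (inl z.2.1 * g ^ z.1.val : Wr q G).right.toAdd = z.1 := by
        change (1 * (g ^ z.1.val).right).toAdd = z.1
        rw [one_mul, pow_right, hr, toAdd_pow, nsmul_eq_mul, ZMod.natCast_val, ZMod.cast_id,
          toAdd_ofAdd, mul_one]
      refine Prod.ext h4 (Subtype.ext ?_)
      change (inl z.2.1 * g ^ z.1.val *
        (g ^ ((inl z.2.1 * g ^ z.1.val : Wr q G).right.toAdd).val)⁻¹ : Wr q G).left = z.2.1
      rw [h4, mul_inv_cancel_right]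
      rfl
  rw [Nat.card_congr e, Nat.card_prod, Nat.card_zmod]

theorem card_gen {g : Wr q G} (hg : g ∈ M) (hr : g.right = Multiplicative.ofAdd 1) :
    Nat.card {b : ZMod q → G // (inl b * tt q G : Wr q G) ∈ M} =
      Nat.card {x : ZMod q → G // (inl x : Wr q G) ∈ M} := by
  have h1 : ∀ b : ZMod q → G, (inl (inl b * tt q G * g⁻¹ : Wr q G).left : Wr q G) =
      inl b * tt q G * g⁻¹ := by
    intro b
    refine SemidirectProduct.ext rfl ?_
    change (1 : Multiplicative (ZMod q)) = (1 * Multiplicative.ofAdd 1) * (g⁻¹).right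
    have h2 : (g⁻¹).right = (g.right)⁻¹ := rfl
    rw [h2, hr, one_mul, mul_inv_cancel]
  have h2 : ∀ x : ZMod q → G, (inl (inl x * g : Wr q G).left * tt q G : Wr q G) = inl x * g := by
    intro x
    refine inl_tt _ ?_
    change 1 * g.right = _
    rw [one_mul, hr]
  refine Nat.card_congr
    { toFun := fun b => ⟨(inl b.1 * tt q G * g⁻¹ : Wr q G).left, ?_⟩
      invFun := fun x => ⟨(inl x.1 * g : Wr q G).left, ?_⟩
      left_inv := fun b => Subtype.ext ?_
      right_inv := fun x => Subtype.ext ?_ }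
  · rw [h1]
    exact M.mul_mem b.2 (M.inv_mem hg)
  · rw [h2]
    exact M.mul_mem x.2 hg
  · change (inl (inl b.1 * tt q G * g⁻¹ : Wr q G).left * g : Wr q G).left = b.1
    rw [h1, inv_mul_cancel_right]
    simp
  · change (inl (inl x.1 * g : Wr q G).left * tt q G * g⁻¹ : Wr q G).left = x.1
    rw [h2, mul_inv_cancel_right]
    rfl

end large

variable {p : ℕ} [hp : Fact p.Prime]

/-- the local difference -/
def uu (p : ℕ) (Q : Subgroup (ZMod q → G)) : ℤ := (q : ℤ) * loc p (im Q) - loc p Q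

theorem card_nm (Q : Subgroup (ZMod q → G)) :
    Nat.card {x : ZMod q → G // (inl x : Wr q G) ∈ nm Q} =
      Nat.card (Subgroup.normalizer (Q : Set (ZMod q → G))) :=
  Nat.card_congr (Equiv.subtypeEquivRight fun _ => inl_mem_nm)

/-- the normaliser is contained in the base group -/
theorem small {Q : Subgroup (ZMod q → G)}
    (h : ∀ g ∈ nm Q, (g : Wr q G).right = 1) :
    Nat.card (nm Q) = Nat.card (Subgroup.normalizer (Q : Set (ZMod q → G))) ∧
      loc p (im Q) = loc p Q := by
  have h1 : ∀ g : nm Q, (inl g.1.left : Wr q G) = g.1 := fun g =>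
    SemidirectProduct.ext rfl (h g.1 g.2).symm
  constructor
  · rw [← card_nm]
    exact Nat.card_congr
      { toFun := fun g => ⟨g.1.left, by rw [h1 g]; exact g.2⟩
        invFun := fun x => ⟨inl x.1, x.2⟩
        left_inv := fun g => Subtype.ext (h1 g)
        right_inv := fun x => rfl }
  · symm
    refine loc_of_hom Q
      { toFun := fun x => ((⟨inl x.1, inl_mem_nm.2 x.2⟩ : nm Q) :
          nm Q ⧸ (im Q).subgroupOf (nm Q))
        map_one' := rfl
        map_mul' := fun x y => by
          have h2 : (⟨inl (x * y).1, inl_mem_nm.2 (x * y).2⟩ : nm Q) =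
              ⟨inl x.1, inl_mem_nm.2 x.2⟩ * ⟨inl y.1, inl_mem_nm.2 y.2⟩ :=
            Subtype.ext (map_mul (inl : (ZMod q → G) →* Wr q G) x.1 y.1)
          rw [h2]
          rfl } ?_ ?_
    · intro y
      obtain ⟨g, rfl⟩ := QuotientGroup.mk_surjective y
      refine ⟨⟨g.1.left, inl_mem_nm.1 (by rw [h1 g]; exact g.2)⟩, ?_⟩
      change ((⟨inl g.1.left, _⟩ : nm Q) : nm Q ⧸ (im Q).subgroupOf (nm Q)) = _
      congr 1
      exact Subtype.ext (h1 g)
    · intro x
      change (((⟨inl x.1, inl_mem_nm.2 x.2⟩ : nm Q) :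
          nm Q ⧸ (im Q).subgroupOf (nm Q)) = 1) ↔ _
      rw [QuotientGroup.eq_one_iff, Subgroup.mem_subgroupOf]
      exact inl_mem_im

/-- the local identity -/
theorem local_id (Q : Subgroup (ZMod q → G)) :
    (Nat.card (nm Q) : ℤ) * loc p (im Q) -
      (Nat.card (Subgroup.normalizer (Q : Set (ZMod q → G))) : ℤ) * loc p Q =
    (Nat.card {b : ZMod q → G // (inl b * tt q G : Wr q G) ∈ nm Q} : ℤ) * uu p Q := by
  by_cases h : ∀ g ∈ nm Q, (g : Wr q G).right = 1
  · obtain ⟨h1, h2⟩ := small (p := p) h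
    have : IsEmpty {b : ZMod q → G // (inl b * tt q G : Wr q G) ∈ nm Q} := by
      refine ⟨fun b => ?_⟩
      have h3 := h _ b.2
      change (1 : Multiplicative (ZMod q)) * Multiplicative.ofAdd 1 = 1 at h3
      rw [one_mul, ofAdd_eq_one] at h3
      exact one_ne_zero h3
    have h0 : Nat.card {b : ZMod q → G // (inl b * tt q G : Wr q G) ∈ nm Q} = 0 :=
      Nat.card_eq_zero.2 (Or.inl this)
    rw [h1, h2, h0]
    simp
  · push Not at h
    obtain ⟨g, hg, hr⟩ := h
    obtain ⟨k, hk, hkr⟩ := exists_gen hg hr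
    rw [card_large hk hkr, card_gen hk hkr, card_nm]
    unfold uu
    push_cast
    ring

/-- conjugation -/
theorem im_conj (n : ZMod q → G) (Q : Subgroup (ZMod q → G)) :
    im (conjSub n Q) = conjSub (inl n : Wr q G) (im Q) := by
  ext z
  rw [mem_conjSub]
  constructor
  · rintro ⟨y, hy, rfl⟩
    rw [← map_inv, ← map_mul, ← map_mul]
    exact inl_mem_im.2 (mem_conjSub.1 hy)
  · intro h
    obtain ⟨y, hy⟩ := im_le Q h
    have hy' : (inl y : Wr q G) = (inl n)⁻¹ * z * inl n := hy
    have h1 : z = inl (n * y * n⁻¹) := by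
      rw [map_mul, map_mul, map_inv, hy']
      group
    rw [h1]
    refine inl_mem_im.2 (conj_mem_conjSub ?_)
    rw [← hy'] at h
    exact inl_mem_im.1 h

theorem uu_conj (n : ZMod q → G) (Q : Subgroup (ZMod q → G)) :
    uu p (conjSub n Q) = uu p Q := by
  unfold uu
  rw [im_conj]
  have h1 : loc p (conjSub (inl n : Wr q G) (im Q)) = loc p (im Q) :=
    loc_map (MulAut.conj (inl n : Wr q G)) (im Q)
  have h2 : loc p (conjSub n Q) = loc p Q := loc_map (MulAut.conj n) Q
  rw [h1, h2]

theorem mem_nm {Q : Subgroup (ZMod q → G)} {g : Wr q G} : g ∈ nm Q ↔ conjSub g (im Q) = im Q :=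
  (conjSub_eq_iff).symm

/-- the sum of the local differences over the subgroups normalised by `g` -/
def UU (p : ℕ) [Fintype {Q : Subgroup (ZMod q → G) // IsPGroup p Q}] (g : Wr q G) : ℤ :=
  ∑ Q : {Q : Subgroup (ZMod q → G) // IsPGroup p Q}, if g ∈ nm Q.1 then uu p Q.1 else 0

theorem UU_conj [Fintype {Q : Subgroup (ZMod q → G) // IsPGroup p Q}] (n : ZMod q → G)
    (g : Wr q G) : UU p (inl n * g * (inl n)⁻¹) = UU p g := by
  unfold UU
  symm
  have hc : ∀ (m : ZMod q → G) (Q : Subgroup (ZMod q → G)), IsPGroup p Q →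
      IsPGroup p (conjSub m Q) := fun m Q hQ => hQ.map _
  refine Fintype.sum_equiv
    { toFun := fun Q => ⟨conjSub n Q.1, hc n Q.1 Q.2⟩
      invFun := fun Q => ⟨conjSub n⁻¹ Q.1, hc n⁻¹ Q.1 Q.2⟩
      left_inv := fun Q => Subtype.ext (Pool.Agent.Y63.KR.conjSub_inv_conjSub n Q.1)
      right_inv := fun Q => Subtype.ext (Pool.Agent.Y63.KR.conjSub_conjSub_inv n Q.1) }
    _ _ fun Q => ?_
  change _ = if inl n * g * (inl n)⁻¹ ∈ nm (conjSub n Q.1) then uu p (conjSub n Q.1) else 0
  rw [uu_conj]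
  have h1 : g ∈ nm Q.1 ↔ inl n * g * (inl n)⁻¹ ∈ nm (conjSub n Q.1) := by
    rw [mem_nm, mem_nm, im_conj, ← Pool.Agent.Y63.KR.conjSub_mul,
      Pool.Agent.Y63.KR.conjSub_mul, Pool.Agent.Y63.KR.conjSub_mul,
      Pool.Agent.Y63.KR.conjSub_mul, Pool.Agent.Y63.KR.conjSub_inv_conjSub,
      (Pool.Agent.Y63.KR.conjSub_injective (inl n : Wr q G)).eq_iff]
  simp only [h1]

/-- subgroups which are not products have no weights -/
theorem uu_zero {Q : Subgroup (ZMod q → G)} (hQ : IsPGroup p Q) (h : cl (im Q) ≠ im Q) :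
    uu p Q = 0 := by
  have hpg : IsPGroup p (im Q) := hQ.map _
  have hle : im Q ≤ cl (im Q) := le_cl (im_le Q)
  have h1 : loc p (im Q) = 0 := by
    refine loc_zero (cl_pg hpg) (lt_of_le_of_ne hle (Ne.symm h)) fun g hg => ?_
    rw [conj_cl, mem_nm.1 hg]
  have h2 : loc p Q = 0 := by
    refine loc_zero (R := (cl (im Q)).comap (inl : (ZMod q → G) →* Wr q G))
      ((cl_pg hpg).comap_of_injective _ SemidirectProduct.inl_injective) ?_ ?_
    · refine lt_of_le_of_ne (fun x hx => hle (inl_mem_im.2 hx)) fun h3 => h ?_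
      conv_rhs => rw [h3]
      exact (im_comap (box_le _)).symm
    · intro g hg
      have h3 := mem_nm.1 (inl_mem_nm.2 hg)
      have h4 : conjSub (inl g : Wr q G) (cl (im Q)) = cl (im Q) := by rw [conj_cl, h3]
      apply im_inj
      have h5 : im ((cl (im Q)).comap (inl : (ZMod q → G) →* Wr q G)) = cl (im Q) :=
        im_comap (box_le _)
      rw [im_conj, h5, h4]
  unfold uu
  rw [h1, h2]
  simp

/-- the diagonal subgroups -/
abbrev dgs (q : ℕ) (R : Subgroup G) : Subgroup (ZMod q → G) := Subgroup.pi Set.univ fun _ => R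

theorem im_dgs (R : Subgroup G) : im (dgs q R) = dg' R := rfl

theorem mem_norm_dgs {R : Subgroup G} {x : ZMod q → G} :
    x ∈ Subgroup.normalizer ((dgs q R : Subgroup (ZMod q → G)) : Set (ZMod q → G)) ↔
      ∀ i, x i ∈ Subgroup.normalizer (R : Set G) := by
  rw [← inl_mem_nm, mem_nm, im_dgs, conj_dg]
  exact forall_congr' fun i => conjSub_eq_iff

theorem loc_dgs (R : Subgroup G) : loc p (dgs q R) = loc p R ^ q := by
  have : NeZero q := ⟨hq.out.ne_zero⟩
  let H := Subgroup.normalizer (R : Set G) ⧸ R.subgroupOf (Subgroup.normalizer (R : Set G))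
  have h1 : loc p R = numDefectZero p H := rfl
  have h2 : numDefectZero p (ZMod q → H) = numDefectZero p H ^ q := by
    rw [dz_pow, Nat.card_zmod]
  rw [h1, ← h2]
  refine loc_of_hom (dgs q R)
    { toFun := fun x i => ((⟨x.1 i, mem_norm_dgs.1 x.2 i⟩ : Subgroup.normalizer (R : Set G)) : H)
      map_one' := rfl
      map_mul' := fun _ _ => rfl } ?_ ?_
  · intro y
    choose x hx using fun i => QuotientGroup.mk_surjective (y i)
    exact ⟨⟨fun i => x i, mem_norm_dgs.2 fun i => (x i).2⟩, funext hx⟩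
  · intro x
    rw [mem_pi']
    constructor
    · intro h i
      have h3 := congrFun h i
      change ((⟨x.1 i, mem_norm_dgs.1 x.2 i⟩ : Subgroup.normalizer (R : Set G)) : H) = 1 at h3
      rw [QuotientGroup.eq_one_iff, Subgroup.mem_subgroupOf] at h3
      exact h3
    · intro h
      funext i
      change ((⟨x.1 i, mem_norm_dgs.1 x.2 i⟩ : Subgroup.normalizer (R : Set G)) : H) = 1
      rw [QuotientGroup.eq_one_iff, Subgroup.mem_subgroupOf]
      exact h i

theorem loc_im_dgs (R : Subgroup G) : loc p (im (dgs q R)) = numDefectZero p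
    (Wr q (Subgroup.normalizer (R : Set G) ⧸ R.subgroupOf (Subgroup.normalizer (R : Set G)))) := by
  have : NeZero q := ⟨hq.out.ne_zero⟩
  let H := Subgroup.normalizer (R : Set G) ⧸ R.subgroupOf (Subgroup.normalizer (R : Set G))
  have hm : ∀ x : nm (dgs q R), ∀ i, x.1.left i ∈ Subgroup.normalizer (R : Set G) := by
    intro x i
    have h1 := mem_nm.1 x.2
    rw [im_dgs, conj_dg] at h1
    exact conjSub_eq_iff.1 (h1 i)
  refine loc_of_hom (im (dgs q R)) (H := Wr q H)
    { toFun := fun x => ⟨fun i => ((⟨x.1.left i, hm x i⟩ : Subgroup.normalizer (R : Set G)) : H),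
        x.1.right⟩
      map_one' := rfl
      map_mul' := fun _ _ => rfl } ?_ ?_
  · intro y
    choose x hx using fun i => QuotientGroup.mk_surjective (y.left i)
    refine ⟨⟨⟨fun i => x i, y.right⟩, ?_⟩, SemidirectProduct.ext (funext hx) rfl⟩
    rw [mem_nm, im_dgs, conj_dg]
    exact fun i => conjSub_eq_iff.2 (x i).2
  · intro x
    constructor
    · intro h
      have h3 : x.1.right = 1 := congrArg SemidirectProduct.right h
      have h4 : (inl x.1.left : Wr q G) = x.1 := SemidirectProduct.ext rfl h3.symm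
      rw [← h4, inl_mem_im, mem_pi']
      intro i
      have h5 := congrFun (congrArg SemidirectProduct.left h) i
      change ((⟨x.1.left i, hm x i⟩ : Subgroup.normalizer (R : Set G)) : H) = 1 at h5
      rw [QuotientGroup.eq_one_iff, Subgroup.mem_subgroupOf] at h5
      exact h5
    · intro h
      obtain ⟨y, hy⟩ := im_le _ h
      have h3 : x.1.right = 1 := by
        rw [← hy]
        rfl
      have h4 : (inl x.1.left : Wr q G) = x.1 := SemidirectProduct.ext rfl h3.symm
      rw [← h4, inl_mem_im, mem_pi'] at h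
      refine SemidirectProduct.ext ?_ h3
      funext i
      change ((⟨x.1.left i, hm x i⟩ : Subgroup.normalizer (R : Set G)) : H) = 1
      rw [QuotientGroup.eq_one_iff, Subgroup.mem_subgroupOf]
      exact h i

theorem uu_dgs (hqp : q ≠ p) (R : Subgroup G) :
    uu p (dgs q R) = ((q : ℤ) ^ 2 - 1) * loc p R := by
  have h := dz_rec (p := p) q
    (Subgroup.normalizer (R : Set G) ⧸ R.subgroupOf (Subgroup.normalizer (R : Set G)))
  rw [if_neg hqp] at h
  unfold uu
  rw [loc_im_dgs, h, loc_dgs]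
  have h1 : loc p R = numDefectZero p
    (Subgroup.normalizer (R : Set G) ⧸ R.subgroupOf (Subgroup.normalizer (R : Set G))) := rfl
  rw [h1]
  push_cast
  ring

end Pool.Agent.U259.AQ
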